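import Pool.Agent.Helper16.TM.Defs

/-!
# Block TM-RC: division by the content

PROOF. `MvPolynomial (Fin n) K` is a UFD, so it has a (noncomputable) `NormalizedGCDMonoid` structure
(`UniqueFactorizationMonoid.toNormalizedGCDMonoid`, needs a `NormalizationMonoid`) and `G = C c * G'` with `c = content`,
`G' = primPart` primitive, `c ≠ 0` (`Polynomial.eq_C_content_mul_primPart`). `c(e_i) ≠ 0` almost everywhere (`li`); `w' i = w i / c(e_i)` (and `w' i = 1`
if `c(e_i) = 0`). `G ≠ 0` because `F i ≠ 0`, `w i ≠ 0`.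
-/

namespace Pool.Agent.Helper16.TM

open NumberField Finset Filter Polynomial
open Pool.Agent.Helper26.DMC (SUnit)
open Pool.Agent.Helper16.TP

theorem h11_exists_prim {R : Type*} [CommRing R] [IsDomain R] [UniqueFactorizationMonoid R]
    (G : R[X]) (hG : G ≠ 0) : ∃ (c : R) (G' : R[X]), c ≠ 0 ∧ G'.IsPrimitive ∧ G = C c * G' := by
  classical
  let _ := UniqueFactorizationMonoid.strongNormalizationMonoid (α := R)
  let _ := UniqueFactorizationMonoid.toNormalizedGCDMonoid R
  refine ⟨G.content, G.primPart, ?_, G.isPrimitive_primPart, G.eq_C_content_mul_primPart⟩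
  rwa [Ne, Polynomial.content_eq_zero_iff]

theorem rep_prim {K : Type*} [Field K] [NumberField K] (U : Ultrafilter ℕ)
    (T : Finset (FinitePlace K)) (F : ℕ → K[X]) (hF0 : ∀ᶠ i in (U : Filter ℕ), F i ≠ 0) {n : ℕ}
    (e : Fin n → ℕ → K) (G : (MvPolynomial (Fin n) K)[X]) (w : ℕ → K) (h : Rep U T F n e G w) :
    ∃ (G' : (MvPolynomial (Fin n) K)[X]) (w' : ℕ → K), G'.IsPrimitive ∧ Rep U T F n e G' w' := by
  classical
  obtain ⟨he, hmi, hrep⟩ := h
  have hG : G ≠ 0 := by
    rintro rfl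
    obtain ⟨i, hi1, hi2, hi3⟩ := (hF0.and hrep).exists
    rw [Polynomial.map_zero] at hi3
    have : C (w i) * F i ≠ 0 := mul_ne_zero (by rwa [Ne, Polynomial.C_eq_zero]) hi1
    exact this hi3.symm
  obtain ⟨c, G', hc, hG', hGc⟩ := h11_exists_prim G hG
  refine ⟨G', fun i => if MvPolynomial.eval (fun b => e b i) c = 0 then 1 else
    w i / MvPolynomial.eval (fun b => e b i) c, hG', he, hmi, ?_⟩
  filter_upwards [li U T e he hmi c hc, hrep] with i hi1 hi2
  obtain ⟨hw, hi3⟩ := hi2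
  rw [if_neg hi1]
  refine ⟨div_ne_zero hw hi1, ?_⟩
  have hC : (C (MvPolynomial.eval (fun b => e b i) c) : K[X]) ≠ 0 := by
    rwa [Ne, Polynomial.C_eq_zero]
  apply mul_left_cancel₀ hC
  rw [← mul_assoc, ← C_mul, mul_div_cancel₀ _ hi1, ← hi3, hGc, Polynomial.map_mul,
    Polynomial.map_C]

end Pool.Agent.Helper16.TM
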