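import Pool.Agent.Helper16.TM.RepB

/-!
# Block TM-RD: in a minimal representation the units are bounded by the height of the monomials

PROOF. `t i = vH (mons G e i)`. `rep_ratio` gives `n', e', z`; `n ≤ n'` by minimality. Put `χ b = ∑ m, z b m • m : Fin n → ℤ`;
then `e' b = ∏_c e_c ^ χ b c` almost everywhere, and as `e'` is `MI`, the `χ b`, `b : Fin n'`, are linearly independent over `ℤ`, so over
`ℚ`; therefore `n' ≤ n`, `n' = n` and they form a basis of `Fin n → ℚ`: for every `c : Fin n` there are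
`N ≠ 0` in `ℤ` and integers `a b` with `N • (unit vector of c) = ∑ a b • χ b`. So
`N log |e_c|_v = ∑ a b log |e' b|_v` and `log |e' b|_v = ∑ m, z b m (log |mons m|_v - log |mons m₀|_v)` (`∑ z b m = 0`), and
`|log |mons m|_v - log |mons m₀|_v| ≤ t`: `units_le` (TP/Height.lean) for `ρ_m = mons m / mons m₀` and
`vH (ρ) = vH (mons)` (`Pool.Agent.V2.vH_smul` or so). (`units_le` is for families indexed by `Fin m`: reindex `expSet G`;
`vH` does not change under an `Equiv`.) `expSet G` is not empty because `F i ≠ 0`.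
-/

namespace Pool.Agent.Helper16.TM

open NumberField Finset Filter Polynomial
open Pool.Agent.Helper64.Vojta (Pl nv sn)
open Pool.Agent.Helper26.DMC (SUnit)
open Pool.Agent.V2 (vn vH)
open Pool.Agent.Helper16.TP

section RepD99

variable {K : Type*} [Field K] [NumberField K]

/-- `nv v` as a homomorphism -/
noncomputable def nvHom99 (v : Pl K) : K →*₀ ℝ where
  toFun := nv v
  map_zero' := Pool.Agent.Helper64.Vojta.nv_zero v
  map_one' := Pool.Agent.Helper64.Vojta.nv_one v
  map_mul' := Pool.Agent.Helper64.Vojta.nv_mul v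

theorem log_nv_zpow99 (v : Pl K) (x : K) (k : ℤ) :
    Real.log (nv v (x ^ k)) = k * Real.log (nv v x) := by
  have h : nv v (x ^ k) = nv v x ^ k := map_zpow₀ (nvHom99 v) x k
  rw [h, Real.log_zpow]

theorem log_nv_prod99 {ι : Type*} (s : Finset ι) (v : Pl K) (f : ι → K)
    (hf : ∀ i ∈ s, f i ≠ 0) :
    Real.log (nv v (∏ i ∈ s, f i)) = ∑ i ∈ s, Real.log (nv v (f i)) := by
  have h : nv v (∏ i ∈ s, f i) = ∏ i ∈ s, nv v (f i) := map_prod (nvHom99 v) f s
  rw [h, Real.log_prod]
  exact fun i hi => (Pool.Agent.Helper64.Vojta.nv_pos v (hf i hi)).ne'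

omit [NumberField K] in
theorem zpow_sum99 {ι : Type*} {x : K} (hx : x ≠ 0) (s : Finset ι) (f : ι → ℤ) :
    x ^ (∑ i ∈ s, f i) = ∏ i ∈ s, x ^ f i := by
  classical
  induction s using Finset.induction_on with
  | empty => simp
  | insert a s ha ih => rw [Finset.sum_insert ha, Finset.prod_insert ha, zpow_add₀ hx, ih]

theorem vH_reindex99 {J J' : Type*} (f : J' ≃ J) (y : J → K) :
    vH (fun κ => y (f κ)) = vH y := by
  unfold vH vn
  congr 1
  funext v
  congr 1
  exact f.iSup_comp (g := fun j => nv v (y j))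

theorem diff_le99 (U : Ultrafilter ℕ) (T : Finset (FinitePlace K)) {J : Type*} [Fintype J]
    (x : J → ℕ → K) (hx : ∀ j, SUnit U T (x j)) (j0 : J) (v : Pl K) (j : J) :
    ∀ᶠ i in (U : Filter ℕ),
      |Real.log (nv v (x j i)) - Real.log (nv v (x j0 i))| ≤ vH (fun j => x j i) := by
  classical
  let f : Fin (Fintype.card J) ≃ J := (Fintype.equivFin J).symm
  let ρ : Fin (Fintype.card J) → ℕ → K :=
    fun κ i => if x j0 i = 0 then 1 else x (f κ) i / x j0 i
  have hρ : ∀ κ, SUnit U T (ρ κ) := by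
    intro κ
    have h1 := hx (f κ)
    have h2 := hx j0
    unfold SUnit at h1 h2 ⊢
    filter_upwards [h1, h2] with i hi hi'
    have h3 : ρ κ i = x (f κ) i / x j0 i := if_neg hi'.1
    rw [h3]
    refine ⟨div_ne_zero hi.1 hi'.1, fun v hv => ?_⟩
    rw [map_div₀, hi.2 v hv, hi'.2 v hv, div_one]
  have h0 : ∀ i, ρ (f.symm j0) i = 1 := by
    intro i
    show (if x j0 i = 0 then 1 else x (f (f.symm j0)) i / x j0 i) = 1
    rw [f.apply_symm_apply]
    split_ifs with h
    · rfl
    · exact div_self h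
  filter_upwards [units_le U T ρ hρ (f.symm j0) h0 (f.symm j) v, hx j0, hx j] with i hi hi' hij
  have h3 : ∀ κ, ρ κ i = x (f κ) i / x j0 i := fun κ => if_neg hi'.1
  have h4 : vH (fun κ => ρ κ i) = vH (fun j => x j i) := by
    have h5 : (fun κ => ρ κ i) = (x j0 i)⁻¹ • (fun κ => x (f κ) i) := by
      funext κ
      rw [h3, Pi.smul_apply, smul_eq_mul, div_eq_inv_mul]
    have h6 : (fun κ => x (f κ) i) ≠ 0 := by
      intro h7
      have h8 := congrFun h7 (f.symm j0)
      rw [Pi.zero_apply, f.apply_symm_apply] at h8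
      exact hi'.1 h8
    rw [h5, Pool.Agent.V2.vH_smul h6 (inv_ne_zero hi'.1)]
    exact vH_reindex99 f (fun j => x j i)
  rw [h4, h3, f.apply_symm_apply] at hi
  have h9 : Real.log (nv v (x j i / x j0 i)) =
      Real.log (nv v (x j i)) - Real.log (nv v (x j0 i)) := by
    rw [div_eq_mul_inv, Pool.Agent.Helper64.Vojta.nv_mul, Pool.Agent.Helper64.Vojta.nv_inv,
      Real.log_mul (Pool.Agent.Helper64.Vojta.nv_pos v hij.1).ne'
        (inv_ne_zero (Pool.Agent.Helper64.Vojta.nv_pos v hi'.1).ne'), Real.log_inv]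
    ring
  rwa [h9] at hi

end RepD99

theorem rep_bound {K : Type*} [Field K] [NumberField K] (U : Ultrafilter ℕ)
    (T : Finset (FinitePlace K)) (F : ℕ → K[X]) (hF0 : ∀ᶠ i in (U : Filter ℕ), F i ≠ 0) {n : ℕ}
    (e : Fin n → ℕ → K) (G : (MvPolynomial (Fin n) K)[X]) (w : ℕ → K) (h : Rep U T F n e G w)
    (hmin : ∀ n' < n, ∀ (e' : Fin n' → ℕ → K) (G' : (MvPolynomial (Fin n') K)[X]) (w' : ℕ → K),
      ¬ Rep U T F n' e' G' w') :
    ∃ B : ℝ, 0 ≤ B ∧ ∀ b v, ∀ᶠ i in (U : Filter ℕ),
      |Real.log (nv v (e b i))| ≤ B * vH (mons G e i) := by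
  classical
  obtain ⟨n', e', G', w', z, hR', hz, he'⟩ := rep_ratio U T F hF0 e G w h
  obtain ⟨hs, hmi, hw⟩ := h
  have hnn : ¬ n' < n := fun hlt => hmin n' hlt e' G' w' hR'
  have he0 : ∀ᶠ i in (U : Filter ℕ), ∀ c, e c i ≠ 0 :=
    Filter.eventually_all.2 fun c => (hs c).mono fun i hi => hi.1
  -- there is a monomial
  have hne : Nonempty (expSet G) := by
    obtain ⟨i, hi, hi'⟩ := (hw.and hF0).exists
    have hG : G ≠ 0 := by
      rintro rfl
      have h1 := hi.2
      rw [Polynomial.map_zero] at h1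
      exact mul_ne_zero (C_ne_zero.2 hi.1) hi' h1.symm
    obtain ⟨s, hs1⟩ : G.support.Nonempty := Finset.nonempty_iff_ne_empty.2
      fun h0 => hG (support_eq_empty.1 h0)
    obtain ⟨m, hm⟩ : (G.coeff s).support.Nonempty := MvPolynomial.support_nonempty.2
      (mem_support_iff.1 hs1)
    refine ⟨⟨m, ?_⟩⟩
    unfold expSet
    exact Finset.mem_biUnion.2 ⟨s, hs1, hm⟩
  obtain ⟨m0⟩ := hne
  let χ : Fin n' → Fin n → ℤ := fun b c =>
    ∑ m : expSet G, z b m * (((m : Fin n →₀ ℕ) c : ℕ) : ℤ)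
  have hchi : ∀ᶠ i in (U : Filter ℕ), ∀ b, e' b i = ∏ c, e c i ^ χ b c := by
    filter_upwards [he', he0] with i h1 h2 b
    rw [h1 b]
    have h3 : ∀ m : expSet G, mons G e i m ^ z b m =
        ∏ c, e c i ^ (z b m * (((m : Fin n →₀ ℕ) c : ℕ) : ℤ)) := by
      intro m
      unfold mons
      rw [← Finset.prod_zpow]
      refine Finset.prod_congr rfl fun c _ => ?_
      rw [mul_comm, zpow_mul, zpow_natCast]
    rw [Finset.prod_congr rfl fun m _ => h3 m, Finset.prod_comm]
    exact Finset.prod_congr rfl fun c _ => (zpow_sum99 (h2 c) _ _).symm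
  have hind : ∀ a : Fin n' → ℤ, (∀ c, ∑ b, a b * χ b c = 0) → a = 0 := by
    intro a ha
    refine hR'.2.1 a ⟨1, ?_⟩
    filter_upwards [hchi, he0] with i h1 h2
    have h3 : ∀ b, e' b i ^ a b = ∏ c, e c i ^ (a b * χ b c) := by
      intro b
      rw [h1 b, ← Finset.prod_zpow]
      refine Finset.prod_congr rfl fun c _ => ?_
      rw [mul_comm, zpow_mul]
    rw [Finset.prod_congr rfl fun b _ => h3 b, Finset.prod_comm]
    refine Finset.prod_eq_one fun c _ => ?_
    rw [← zpow_sum99 (h2 c), ha c, zpow_zero]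
  have hli : LinearIndependent ℤ χ := by
    rw [Fintype.linearIndependent_iff]
    intro a ha b
    have h1 := hind a (fun c => by
      have h2 := congrFun ha c
      simpa [Finset.sum_apply] using h2)
    rw [h1]
    rfl
  have hle : n' ≤ n := by
    have h1 := hli.fintype_card_le_finrank
    simpa using h1
  have hn : n' = n := by omega
  subst hn
  let M : Matrix (Fin n') (Fin n') ℤ := χ
  have hdet : M.det ≠ 0 := by
    intro h0
    obtain ⟨a, ha, hav⟩ := Matrix.exists_vecMul_eq_zero_iff.2 h0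
    exact ha (hind a fun c => congrFun hav c)
  have hadj : ∀ c c', ∑ b, M.adjugate c b * χ b c' = if c = c' then M.det else 0 := by
    intro c c'
    have h1 := congrFun (congrFun M.adjugate_mul c) c'
    rw [Matrix.mul_apply, Matrix.smul_apply, Matrix.one_apply, smul_eq_mul, mul_ite, mul_one,
      mul_zero] at h1
    exact h1
  have hmS : ∀ m : expSet G, SUnit U T (fun i => mons G e i m) := by
    intro m
    have h1 : ∀ᶠ i in (U : Filter ℕ), ∀ c, e c i ≠ 0 ∧ ∀ v : FinitePlace K, v ∉ T →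
        v (e c i) = 1 := Filter.eventually_all.2 hs
    unfold SUnit
    filter_upwards [h1] with i hi
    unfold mons
    refine ⟨Finset.prod_ne_zero_iff.2 fun c _ => pow_ne_zero _ (hi c).1, fun v hv => ?_⟩
    rw [map_prod]
    exact Finset.prod_eq_one fun c _ => by rw [map_pow, (hi c).2 v hv, one_pow]
  have hm0 : ∀ᶠ i in (U : Filter ℕ), ∀ m : expSet G, mons G e i m ≠ 0 :=
    Filter.eventually_all.2 fun m => (hmS m).mono fun i hi => hi.1
  let Z : Fin n' → ℝ := fun b => ∑ m : expSet G, |(z b m : ℝ)|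
  let Bc : Fin n' → ℝ := fun c => ∑ b, |(M.adjugate c b : ℝ)| * Z b
  have hZ : ∀ b, 0 ≤ Z b := fun b => Finset.sum_nonneg fun m _ => abs_nonneg _
  have hBc : ∀ c, 0 ≤ Bc c := fun c => Finset.sum_nonneg fun b _ =>
    mul_nonneg (abs_nonneg _) (hZ b)
  refine ⟨∑ c, Bc c, Finset.sum_nonneg fun c _ => hBc c, fun c v => ?_⟩
  have hdiff : ∀ᶠ i in (U : Filter ℕ), ∀ m : expSet G,
      |Real.log (nv v (mons G e i m)) - Real.log (nv v (mons G e i m0))| ≤ vH (mons G e i) :=
    Filter.eventually_all.2 fun m => diff_le99 U T (fun m i => mons G e i m) hmS m0 v m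
  filter_upwards [hdiff, hm0, hchi, he', he0] with i hd hm hc he1 hen
  have ht : 0 ≤ vH (mons G e i) := Pool.Agent.V2.vH_nonneg fun h0 =>
    hm m0 (by rw [h0]; rfl)
  -- the units e'
  have hE : ∀ b, |Real.log (nv v (e' b i))| ≤ Z b * vH (mons G e i) := by
    intro b
    have h1 : Real.log (nv v (e' b i)) = ∑ m : expSet G, (z b m : ℝ) *
        (Real.log (nv v (mons G e i m)) - Real.log (nv v (mons G e i m0))) := by
      rw [he1 b, log_nv_prod99 _ _ _ fun m _ => zpow_ne_zero _ (hm m)]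
      have h2 : ∑ m : expSet G, (z b m : ℝ) * Real.log (nv v (mons G e i m0)) = 0 := by
        rw [← Finset.sum_mul]
        have h3 : ∑ m : expSet G, (z b m : ℝ) = 0 := by exact_mod_cast hz b
        rw [h3, zero_mul]
      simp only [mul_sub, Finset.sum_sub_distrib, h2, sub_zero]
      exact Finset.sum_congr rfl fun m _ => log_nv_zpow99 _ _ _
    rw [h1]
    refine (Finset.abs_sum_le_sum_abs _ _).trans ?_
    rw [Finset.sum_mul]
    refine Finset.sum_le_sum fun m _ => ?_
    rw [abs_mul]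
    exact mul_le_mul_of_nonneg_left (hd m) (abs_nonneg _)
  -- the units e
  have hL : ∀ b, Real.log (nv v (e' b i)) = ∑ c', (χ b c' : ℝ) * Real.log (nv v (e c' i)) := by
    intro b
    rw [hc b, log_nv_prod99 _ _ _ fun c' _ => zpow_ne_zero _ (hen c')]
    exact Finset.sum_congr rfl fun c' _ => log_nv_zpow99 _ _ _
  have hkey : (M.det : ℝ) * Real.log (nv v (e c i)) =
      ∑ b, (M.adjugate c b : ℝ) * Real.log (nv v (e' b i)) := by
    have h1 : ∑ b, (M.adjugate c b : ℝ) * Real.log (nv v (e' b i)) =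
        ∑ c', (∑ b, (M.adjugate c b : ℝ) * (χ b c' : ℝ)) * Real.log (nv v (e c' i)) := by
      simp only [hL, Finset.mul_sum, Finset.sum_mul]
      rw [Finset.sum_comm]
      exact Finset.sum_congr rfl fun c' _ => Finset.sum_congr rfl fun b _ => by ring
    have h2 : ∀ c', ∑ b, (M.adjugate c b : ℝ) * (χ b c' : ℝ) =
        if c = c' then (M.det : ℝ) else 0 := by
      intro c'
      have h3 := hadj c c'
      have h4 : ∑ b, (M.adjugate c b : ℝ) * (χ b c' : ℝ) =
          ((∑ b, M.adjugate c b * χ b c' : ℤ) : ℝ) := by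
        rw [Int.cast_sum]
        exact Finset.sum_congr rfl fun b _ => (Int.cast_mul _ _).symm
      rw [h4, h3]
      split_ifs
      · rfl
      · exact Int.cast_zero
    rw [h1]
    simp only [h2, ite_mul, zero_mul, Finset.sum_ite_eq, Finset.mem_univ, if_true]
  have hdet1 : (1 : ℝ) ≤ |(M.det : ℝ)| := by
    have h1 : (1 : ℤ) ≤ |M.det| := Int.one_le_abs hdet
    exact_mod_cast h1
  calc |Real.log (nv v (e c i))| ≤ |(M.det : ℝ)| * |Real.log (nv v (e c i))| :=
        le_mul_of_one_le_left (abs_nonneg _) hdet1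
    _ = |∑ b, (M.adjugate c b : ℝ) * Real.log (nv v (e' b i))| := by rw [← abs_mul, hkey]
    _ ≤ ∑ b, |(M.adjugate c b : ℝ) * Real.log (nv v (e' b i))| := Finset.abs_sum_le_sum_abs _ _
    _ ≤ ∑ b, |(M.adjugate c b : ℝ)| * Z b * vH (mons G e i) := by
        refine Finset.sum_le_sum fun b _ => ?_
        rw [abs_mul, mul_assoc]
        exact mul_le_mul_of_nonneg_left (hE b) (abs_nonneg _)
    _ = Bc c * vH (mons G e i) := by rw [Finset.sum_mul]
    _ ≤ (∑ c, Bc c) * vH (mons G e i) := by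
        refine mul_le_mul_of_nonneg_right ?_ ht
        exact Finset.single_le_sum (f := Bc) (fun c _ => hBc c) (Finset.mem_univ c)

end Pool.Agent.Helper16.TM
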