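import Pool.Agent.Helper16.TM.HBound
import Pool.Agent.Helper16.TM.RepC
import Pool.Agent.Helper16.TM.RepD
import Pool.Agent.Helper16.TP.KFinal

/-!
# Block TM-KM: the inequality over `K` (version of `TP.kfinal` without primitivity)

Variant of `TP.kfinal` (TP/KFinal.lean, by helper12: copy its steps (1) and (3), (4)).

PROOF. Suppose there is no `c`; choose for every `n : ℕ` a counterexample `P n, a n, u n` for `c = n`, `F i = C (a i) * P_K i`,
`U` an ultrafilter `≤ atTop`. (1) `vH (cf r (P_K i))` tends to infinity along `U` (`bdd_vec`; otherwise `P_K` is constant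
almost everywhere). (2) For every `j` either `u · j = 0` almost everywhere or it is an `SUnit`; `rep_exists` for `F`. Let `n` be minimal
(`Nat.find`) such that `Rep U T F n e G w` for some `e, G, w`; `rep_prim`: `G` primitive; `rep_bound`: `B`.
(3) `t i = vH (mons G e i)` tends to infinity: `bdd_vec` for `x_i = mons m / mons m₀` (`m₀ ∈ expSet G`; same height); otherwise
`∏ b, e b ^ (m b - m₀ b)` is constant almost everywhere, so `m = m₀` (`MI`) for all `m ∈ expSet G`, `G = C (X ^ m₀) * H.map C` and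
`F i` is proportional to `H` almost everywhere, so `P_K i` (monic) is constant, a contradiction to (1).
(4) `kpoly` for `G, e` (natDegree `G = r`: `≤ r` because `cf`.. the coefficients of `G(e_i) = C w_i * F i` of index `> r` vanish, so do those of
`G` (`li`); the coefficient of index `r` is not `0`; `rd r G ≠ 0`, `G.eval (C x) ≠ 0`, `hG` by evaluation at `e_i` as in `kseq`):
`lsum T ((q - 1) log |G(e)|_v - log |rd r G(e)|_v - ∑ log |G(e)(x)|_v) ≤ δ' t`. `gcd_vec`: `lsum T (log |G(e)|_v) ≤ vH (cf r G(e)) + δ' t`.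
`height_mons`: `t ≤ 2 vH (cf r G(e))`. `vH (cf r G(e)) = vH (cf r P_K)` (`G(e_i) = C (w_i a_i) * P_K i`, `vH_smul`).
(5) As in `kfinal` (4): `(2 r - 1 + q) log |F|_v - log |rd r F|_v - ∑ log |F(x)|_v` is the same for `G(e_i)` and `P_K i`, so the left side is
`≤ δ' t + 2 r (vH + δ' t) ≤ (2 r + ε/2) vH` with `δ' = ε / (4 * (2 r + 1))`, a contradiction for large `c = n`.
-/

namespace Pool.Agent.Helper16.TM

open NumberField Finset Filter Polynomial
open Pool.Agent.Helper64.Vojta (Pl nv sn)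
open Pool.Agent.Helper61.AD (cf)
open Pool.Agent.V2 (vn vH)
open Pool.Agent.Helper16.TP

section aux97

open Pool.Agent.Helper64.Vojta (nv_mul nv_one nv_pos nv_inv nv_zero)

variable {K : Type*} [Field K]

theorem mons_ne_zero97 {n : ℕ} (G : (MvPolynomial (Fin n) K)[X]) (e : Fin n → ℕ → K) (i : ℕ)
    (he : ∀ b, e b i ≠ 0) (m : expSet G) : mons G e i m ≠ 0 :=
  Finset.prod_ne_zero_iff.2 fun b _ => pow_ne_zero _ (he b)

theorem mem_expSet97 {n : ℕ} (G : (MvPolynomial (Fin n) K)[X]) (s : ℕ) (m : Fin n →₀ ℕ)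
    (hm : m ∈ (G.coeff s).support) : m ∈ expSet G := by
  unfold expSet
  refine Finset.mem_biUnion.2 ⟨s, ?_, hm⟩
  rw [mem_support_iff]
  intro h
  rw [h] at hm
  simp at hm

theorem expSet_nonempty97 {n : ℕ} (G : (MvPolynomial (Fin n) K)[X]) (hG : G ≠ 0) :
    ∃ m, m ∈ expSet G := by
  have h1 : G.leadingCoeff ≠ 0 := leadingCoeff_ne_zero.2 hG
  obtain ⟨m, hm⟩ := MvPolynomial.support_nonempty.2 h1
  exact ⟨m, mem_expSet97 G G.natDegree m hm⟩

/-- if only one exponent occurs, two values are proportional -/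
theorem map_eval_prop97 {n : ℕ} (G : (MvPolynomial (Fin n) K)[X]) (m₀ : Fin n →₀ ℕ)
    (h : ∀ m ∈ expSet G, m = m₀) (x y : Fin n → K) (hy : ∀ b, y b ≠ 0) :
    G.map (MvPolynomial.eval x) =
      C ((∏ b, x b ^ m₀ b) / ∏ b, y b ^ m₀ b) * G.map (MvPolynomial.eval y) := by
  have hy0 : (∏ b, y b ^ m₀ b) ≠ 0 := Finset.prod_ne_zero_iff.2 fun b _ => pow_ne_zero _ (hy b)
  have key : ∀ (z : Fin n → K) (s : ℕ), MvPolynomial.eval z (G.coeff s) =
      MvPolynomial.coeff m₀ (G.coeff s) * ∏ b, z b ^ m₀ b := by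
    intro z s
    rw [MvPolynomial.eval_eq']
    by_cases hs : m₀ ∈ (G.coeff s).support
    · rw [Finset.sum_eq_single m₀]
      · intro m hm hne
        exact absurd (h m (mem_expSet97 G s m hm)) hne
      · intro h1
        exact absurd hs h1
    · rw [MvPolynomial.notMem_support_iff.1 hs, zero_mul]
      refine Finset.sum_eq_zero fun m hm => ?_
      rw [h m (mem_expSet97 G s m hm)] at hm
      exact absurd hm hs
  ext s
  rw [coeff_map, coeff_C_mul, coeff_map, key, key]
  field_simp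

end aux97

theorem kmax {k K : Type*} [Field k] [NumberField k] [Field K] [NumberField K] [Algebra k K]
    {r m : ℕ} (hr : 1 ≤ r) (T : Finset (FinitePlace K)) (G : Fin m → K[X])
    (hG : ∀ j, (G j).natDegree ≤ r) (p : Finset K) (hp : p.Nonempty) (ε : ℝ) (hε : 0 < ε) :
    ∃ c : ℝ, ∀ P : k[X], P.Monic → Irreducible P → P.natDegree = r →
      (∀ x ∈ p, (P.map (algebraMap k K)).eval x ≠ 0) → ∀ (a : K) (u : Fin m → K), a ≠ 0 →
      (∀ j, u j = 0 ∨ ∀ v : FinitePlace K, v ∉ T → v (u j) = 1) →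
      C a * P.map (algebraMap k K) = ∑ j, C (u j) * G j →
      (lsum T fun v =>
        (2 * (r : ℝ) - 1 + p.card) * Real.log (vn v (cf r (P.map (algebraMap k K)))) -
          Real.log (nv v (rd r (P.map (algebraMap k K)))) -
          ∑ x ∈ p, Real.log (nv v ((P.map (algebraMap k K)).eval x))) ≤
        (2 * r + ε) * vH (cf r (P.map (algebraMap k K))) + c := by
  classical
  by_contra hcon
  push Not at hcon
  choose P hPm hPi hPd hPx a u ha hu hsum hbad using fun n : ℕ => hcon n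
  let U : Ultrafilter ℕ := Filter.hyperfilter ℕ
  have hU : (U : Filter ℕ) ≤ atTop := _root_.Nat.hyperfilter_le_atTop
  let Q : ℕ → K[X] := fun n => (P n).map (algebraMap k K)
  have hQm : ∀ n, (Q n).Monic := fun n => (hPm n).map _
  have hQd : ∀ n, (Q n).natDegree = r := fun n => by
    rw [← hPd n]
    exact (hPm n).natDegree_map _
  have hcf1 : ∀ n, cf r (Q n) (Fin.last r) = 1 := by
    intro n
    have h1 := (hQm n).coeff_natDegree
    rw [hQd n] at h1
    exact h1
  have hcf0 : ∀ n, cf r (Q n) ≠ 0 := by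
    intro n h
    have h1 := hcf1 n
    rw [h] at h1
    exact zero_ne_one h1
  have hrd0 : ∀ n, rd r (Q n) ≠ 0 := by
    intro n h
    have hsep : (Q n).Separable := ((hPi n).separable).map
    have hder : (derivative (Q n)).natDegree = r - 1 := by
      rw [natDegree_derivative, hQd n]
    have h1 : resultant (Q n) (derivative (Q n)) = 0 := by
      rw [hQd n, hder]
      exact h
    rw [resultant_eq_zero_iff] at h1
    exact h1.2 hsep
  have hvH0 : ∀ n, 0 ≤ vH (cf r (Q n)) := fun n => Pool.Agent.V2.vH_nonneg (hcf0 n)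
  have hcoef : 0 ≤ 2 * (r : ℝ) + ε := by positivity
  -- (1)
  have hlim : Tendsto (fun n => vH (cf r (Q n))) (U : Filter ℕ) atTop := by
    rcases bdd_vec U (fun n => cf r (Q n)) (Fin.last r) (Filter.Eventually.of_forall hcf1) with
      h | ⟨y, hy⟩
    · exact h
    · exfalso
      obtain ⟨n0, hn0⟩ := hy.exists
      have h2 : ∀ᶠ n in (U : Filter ℕ), Q n = Q n0 := by
        filter_upwards [hy] with n hn
        exact eq_of_cf12 (hQd n).le (hQd n0).le (hn.trans hn0.symm)
      set L := lsum T fun v =>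
        (2 * (r : ℝ) - 1 + p.card) * Real.log (vn v (cf r (Q n0))) -
          Real.log (nv v (rd r (Q n0))) - ∑ x ∈ p, Real.log (nv v ((Q n0).eval x)) with hL
      have h3 : ∀ᶠ n : ℕ in (U : Filter ℕ), L < (n : ℝ) :=
        ((tendsto_natCast_atTop_atTop (R := ℝ)).eventually_gt_atTop L).filter_mono hU
      obtain ⟨n, hn1, hn2⟩ := (h2.and h3).exists
      have h4 := hbad n
      change (2 * (r : ℝ) + ε) * vH (cf r (Q n)) + n < lsum T fun v =>
        (2 * (r : ℝ) - 1 + p.card) * Real.log (vn v (cf r (Q n))) -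
          Real.log (nv v (rd r (Q n))) - ∑ x ∈ p, Real.log (nv v ((Q n).eval x)) at h4
      have h5 := mul_nonneg hcoef (hvH0 n)
      rw [hn1] at h4 h5
      rw [← hL] at h4
      linarith
  -- (2)
  let F : ℕ → K[X] := fun n => C (a n) * Q n
  have hF0 : ∀ᶠ i in (U : Filter ℕ), F i ≠ 0 :=
    Filter.Eventually.of_forall fun n => mul_ne_zero (C_ne_zero.2 (ha n)) (hQm n).ne_zero
  obtain ⟨N, ⟨e, G₀, w₀, h0⟩, hmin⟩ : ∃ N : ℕ, (∃ (e : Fin N → ℕ → K)
      (H : (MvPolynomial (Fin N) K)[X]) (w : ℕ → K), Rep U T F N e H w) ∧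
      ∀ n' < N, ∀ (e' : Fin n' → ℕ → K) (G' : (MvPolynomial (Fin n') K)[X]) (w' : ℕ → K),
        ¬ Rep U T F n' e' G' w' := by
    have hex : ∃ N : ℕ, ∃ (e : Fin N → ℕ → K) (H : (MvPolynomial (Fin N) K)[X]) (w : ℕ → K),
        Rep U T F N e H w := by
      obtain ⟨N, e, H, w, h⟩ := rep_exists U T G (fun j n => u n j)
        (fun j => eventually_zero_or_sunit12 U T _ fun n => hu n j) F
        (Filter.Eventually.of_forall fun n => hsum n)
      exact ⟨N, e, H, w, h⟩
    exact ⟨Nat.find hex, Nat.find_spec hex,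
      fun n' hn' e' G' w' h => Nat.find_min hex hn' ⟨e', G', w', h⟩⟩
  obtain ⟨𝓕, w, hprim, hrep⟩ := rep_prim U T F hF0 e G₀ w₀ h0
  obtain ⟨B, hB0, hB⟩ := rep_bound U T F hF0 e 𝓕 w hrep hmin
  obtain ⟨he, hmi, hmap0⟩ := hrep
  have hmap : ∀ᶠ i in (U : Filter ℕ), w i * a i ≠ 0 ∧
      𝓕.map (MvPolynomial.eval fun b => e b i) = C (w i * a i) * Q i := by
    filter_upwards [hmap0] with i hi
    refine ⟨mul_ne_zero hi.1 (ha i), ?_⟩
    rw [hi.2, C_mul, mul_assoc]
  have he0 : ∀ᶠ i in (U : Filter ℕ), ∀ b, e b i ≠ 0 :=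
    (eventually_all).2 fun b => (he b).mono fun i hi => hi.1
  have hvHF : ∀ᶠ i in (U : Filter ℕ),
      vH (cf r (𝓕.map (MvPolynomial.eval fun b => e b i))) = vH (cf r (Q i)) := by
    filter_upwards [hmap] with i hi
    rw [hi.2, cf_C_mul12]
    exact Pool.Agent.V2.vH_smul (hcf0 i) hi.1
  have h𝓕0 : 𝓕 ≠ 0 := hprim.ne_zero
  -- (3)
  obtain ⟨m₀, hm₀⟩ := expSet_nonempty97 𝓕 h𝓕0
  have ht : Tendsto (fun i => vH (mons 𝓕 e i)) (U : Filter ℕ) atTop := by
    rcases bdd_vec U (fun i m => mons 𝓕 e i m / mons 𝓕 e i ⟨m₀, hm₀⟩) ⟨m₀, hm₀⟩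
      (he0.mono fun i hi => div_self (mons_ne_zero97 𝓕 e i hi _)) with h | ⟨y, hy⟩
    · refine h.congr' ?_
      filter_upwards [he0] with i hi
      have h1 : (fun m => mons 𝓕 e i m / mons 𝓕 e i ⟨m₀, hm₀⟩) =
          (mons 𝓕 e i ⟨m₀, hm₀⟩)⁻¹ • mons 𝓕 e i := by
        funext m
        rw [Pi.smul_apply, smul_eq_mul, div_eq_inv_mul]
      rw [h1]
      refine Pool.Agent.V2.vH_smul ?_ (inv_ne_zero (mons_ne_zero97 𝓕 e i hi _))
      intro h2
      exact mons_ne_zero97 𝓕 e i hi ⟨m₀, hm₀⟩ (congrFun h2 _)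
    · exfalso
      have hone : ∀ m ∈ expSet 𝓕, m = m₀ := by
        intro m hm
        have h1 := hmi (fun b => (m b : ℤ) - m₀ b) ⟨y ⟨m, hm⟩, by
          filter_upwards [hy, he0] with i h1 h2
          have h3 := congrFun h1 ⟨m, hm⟩
          rw [← h3]
          simp only [mons]
          rw [← Finset.prod_div_distrib]
          refine Finset.prod_congr rfl fun b _ => ?_
          rw [zpow_sub₀ (h2 b), zpow_natCast, zpow_natCast]⟩
        ext b
        have h2 := congrFun h1 b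
        simp only [Pi.zero_apply] at h2
        omega
      obtain ⟨i₀, h1, h2⟩ := (he0.and hmap).exists
      have h3 : ∀ᶠ i in (U : Filter ℕ), vH (cf r (Q i)) = vH (cf r (Q i₀)) := by
        filter_upwards [he0, hmap, hvHF] with i h4 h5 h6
        have h7 := map_eval_prop97 𝓕 m₀ hone (fun b => e b i) (fun b => e b i₀) h1
        rw [← h6, h7, h2.2, ← mul_assoc, ← C_mul, cf_C_mul12]
        refine Pool.Agent.V2.vH_smul (hcf0 i₀) (mul_ne_zero (div_ne_zero ?_ ?_) h2.1)
        · exact Finset.prod_ne_zero_iff.2 fun b _ => pow_ne_zero _ (h4 b)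
        · exact Finset.prod_ne_zero_iff.2 fun b _ => pow_ne_zero _ (h1 b)
      obtain ⟨n, h4, h5⟩ := (h3.and (hlim.eventually_gt_atTop (vH (cf r (Q i₀))))).exists
      exact absurd h4 h5.ne'
  -- (4)
  have hdeg𝓕 : 𝓕.natDegree = r := by
    refine le_antisymm ?_ (le_natDegree_of_ne_zero ?_)
    · rw [natDegree_le_iff_coeff_eq_zero]
      intro s hs
      by_contra h
      obtain ⟨i, h1, h2⟩ := ((li U T e he hmi _ h).and hmap).exists
      apply h1
      have h3 := congrArg (fun R => R.coeff s) h2.2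
      simp only [coeff_map, coeff_C_mul] at h3
      rw [h3, coeff_eq_zero_of_natDegree_lt (by rw [hQd i]; exact hs), mul_zero]
    · intro h
      obtain ⟨i, h1⟩ := hmap.exists
      have h3 := congrArg (fun R => R.coeff r) h1.2
      simp only [coeff_map, h, map_zero, coeff_C_mul] at h3
      have h4 : (Q i).coeff r = 1 := hcf1 i
      rw [h4, mul_one] at h3
      exact h1.1 h3.symm
  have hres𝓕 : rd r 𝓕 ≠ 0 := by
    intro h
    obtain ⟨i, h1⟩ := hmap.exists
    have h4 := H94.rd_map (MvPolynomial.eval fun b => e b i) r 𝓕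
    rw [h, map_zero, h1.2, rd_C_mul12 hr] at h4
    exact mul_ne_zero (pow_ne_zero _ h1.1) (hrd0 i) h4
  have hev𝓕 : ∀ x ∈ p, 𝓕.eval (MvPolynomial.C x) ≠ 0 := by
    intro x hx h
    obtain ⟨i, h1⟩ := hmap.exists
    have h4 := congrArg (fun P => P.eval x) h1.2
    have h5 : (𝓕.map (MvPolynomial.eval fun b => e b i)).eval x = 0 := by
      have h6 := Polynomial.eval_map_apply (MvPolynomial.eval fun b => e b i) (p := 𝓕)
        (MvPolynomial.C x)
      rw [h, map_zero, MvPolynomial.eval_C] at h6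
      exact h6
    simp only [h5, eval_mul, eval_C] at h4
    exact mul_ne_zero h1.1 (hPx i x hx) h4.symm
  have hQG : ∀ G : K[X], 0 < G.natDegree → ∀ᶠ n in (U : Filter ℕ), ¬ G ∣ Q n := by
    intro G hG
    by_contra hnot
    rw [← Ultrafilter.eventually_not] at hnot
    simp only [not_not] at hnot
    obtain ⟨α, hα⟩ := IsAlgClosed.exists_aeval_eq_zero (AlgebraicClosure K) G
      (by
        intro h
        rw [natDegree_eq_of_degree_eq_some (n := 0) (by simpa using h)] at hG
        exact lt_irrefl _ hG)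
    have h1 : ∀ᶠ n in (U : Filter ℕ), P n = minpoly k α := by
      filter_upwards [hnot] with n h2
      have h4 : aeval α (Q n) = 0 := by
        obtain ⟨R, hR⟩ := h2
        rw [hR, map_mul, hα, zero_mul]
      have h6 : aeval α (P n) = 0 := by
        simp only [Q] at h4
        rwa [aeval_map_algebraMap] at h4
      exact minpoly.eq_of_irreducible_of_monic (hPi n) h6 (hPm n)
    have h3 := hlim.eventually_gt_atTop (vH (cf r ((minpoly k α).map (algebraMap k K))))
    obtain ⟨n, h4, h5⟩ := (h1.and h3).exists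
    simp only [Q, h4] at h5
    exact lt_irrefl _ h5
  have hG𝓕 : ∀ G : K[X], 0 < G.natDegree → ∀ a : MvPolynomial (Fin N) K, a ≠ 0 →
      ¬ (G.map MvPolynomial.C ∣ C a * 𝓕) := by
    intro G hG0 y hy hdvd
    obtain ⟨i, h1, h3, h4⟩ := (hmap.and ((hQG G hG0).and (li U T e he hmi y hy))).exists
    have h5 := Polynomial.map_dvd (MvPolynomial.eval fun b => e b i) hdvd
    rw [Polynomial.map_map, Polynomial.map_mul, map_C, h1.2] at h5
    have h6 : (MvPolynomial.eval fun b => e b i).comp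
        (MvPolynomial.C : K →+* MvPolynomial (Fin N) K) = RingHom.id K := by
      ext z
      simp
    rw [h6, Polynomial.map_id, ← mul_assoc, ← C_mul] at h5
    refine h3 ?_
    have h7 : IsUnit (C (MvPolynomial.eval (fun b => e b i) y * (w i * a i)) : K[X]) :=
      isUnit_C.2 (isUnit_iff_ne_zero.2 (mul_ne_zero h4 h1.1))
    exact (h7.dvd_mul_left).1 h5
  -- (5)
  set δ : ℝ := ε / (4 * (2 * r + 1)) with hδ_def
  have hδ : 0 < δ := by positivity
  have hk := kpoly U T hr e he hmi 𝓕 hdeg𝓕 hres𝓕 p hp hev𝓕 hG𝓕 _ ht B hB δ hδ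
  have hg := gcd_vec U T e he hmi 𝓕 hprim hdeg𝓕.le _ ht B hB δ hδ
  have hh := height_mons U T e he hmi 𝓕 hprim hdeg𝓕.le ht B hB
  have hpos := ht.eventually_gt_atTop 0
  obtain ⟨n, h1, h2, h3, h4, h5, h6⟩ :=
    (hk.and (hg.and (hh.and (hmap.and (hvHF.and hpos))))).exists
  have h7 := hbad n
  change (2 * (r : ℝ) + ε) * vH (cf r (Q n)) + n < lsum T fun v =>
    (2 * (r : ℝ) - 1 + p.card) * Real.log (vn v (cf r (Q n))) -
      Real.log (nv v (rd r (Q n))) - ∑ x ∈ p, Real.log (nv v ((Q n).eval x)) at h7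
  rw [h5] at h2 h3
  rw [h4.2] at h1 h2
  have e1 : (fun v => (2 * (r : ℝ) - 1 + p.card) * Real.log (vn v (cf r (Q n))) -
      Real.log (nv v (rd r (Q n))) - ∑ x ∈ p, Real.log (nv v ((Q n).eval x))) =
      fun v => (((p.card : ℝ) - 1) * Real.log (vn v (cf r (C (w n * a n) * Q n))) -
        Real.log (nv v (rd r (C (w n * a n) * Q n))) -
        ∑ x ∈ p, Real.log (nv v ((C (w n * a n) * Q n).eval x))) +
        2 * r * Real.log (vn v (cf r (C (w n * a n) * Q n))) := by
    funext v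
    exact expr_eq12 hr p v h4.1 (hcf0 n) (hrd0 n) (hPx n)
  rw [e1, lsum_add_mul12] at h7
  have h9 : 2 * (r : ℝ) * lsum T (fun v => Real.log (vn v (cf r (C (w n * a n) * Q n)))) ≤
      2 * r * (vH (cf r (Q n)) + δ * vH (mons 𝓕 e n)) := by gcongr
  have h10 : (0 : ℝ) ≤ n := Nat.cast_nonneg n
  have h11 : (2 * (r : ℝ) + 1) * δ = ε / 4 := by
    rw [hδ_def]
    field_simp
  have h12 : (2 * (r : ℝ) + 1) * δ * vH (mons 𝓕 e n) ≤ ε / 4 * (2 * vH (cf r (Q n))) := by
    rw [h11]
    gcongr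
  have h13 := hvH0 n
  nlinarith

end Pool.Agent.Helper16.TM
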