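import Mathlib

/-!
# Block TM-GE: a basis in echelon form

PROOF. `σ` is a linear order on `ι`. For `x ≠ 0` in `V` let `lead x` be the largest index (for `σ`) with
`x (lead x) ≠ 0`, and `Λ = {lead x : 0 ≠ x ∈ V}`. Choose `ψ_a ∈ V` with `lead ψ_a = a` for `a ∈ Λ`. They are linearly
independent (look at the largest `a` with a nonzero coefficient), so `#Λ ≤ finrank V`. The restriction
`V → (Λ → K)` is injective (if `x ≠ 0` vanishes on `Λ` then `x (lead x) = 0`), so `finrank V ≤ #Λ`. Number `Λ` by
`Fin (finrank K V)`.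
-/

namespace Pool.Agent.Helper16.TM

open Module

theorem echelon {K : Type*} [Field K] {ι : Type*} [Fintype ι] (V : Submodule K (ι → K)) {M : ℕ}
    (σ : Fin M ≃ ι) :
    ∃ (lead : Fin (finrank K V) → ι) (ψ : Fin (finrank K V) → (ι → K)),
      Function.Injective lead ∧ (∀ j, ψ j ∈ V) ∧ LinearIndependent K ψ ∧
      ∀ j m, σ.symm (lead j) < σ.symm m → ψ j m = 0 := by
  classical
  let Λ : Type _ := {a : ι // ∃ x ∈ V, x a ≠ 0 ∧ ∀ m, σ.symm a < σ.symm m → x m = 0}
  have hΛ : ∀ a : Λ, ∃ x ∈ V, x a.1 ≠ 0 ∧ ∀ m, σ.symm a.1 < σ.symm m → x m = 0 := fun a => a.2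
  choose ψ hψV hψ0 hψ using hΛ
  have hli : LinearIndependent K ψ := by
    rw [linearIndependent_iff']
    intro s g hs
    by_contra hcon
    push Not at hcon
    obtain ⟨i, his, hgi⟩ := hcon
    obtain ⟨a, hat, hamax⟩ := Finset.exists_max_image (s.filter fun b => g b ≠ 0)
      (fun b : Λ => σ.symm b.1) ⟨i, Finset.mem_filter.2 ⟨his, hgi⟩⟩
    have ha := Finset.mem_filter.1 hat
    have h1 := congrFun hs a.1
    rw [Finset.sum_apply, Finset.sum_eq_single a] at h1
    · simp only [Pi.smul_apply, smul_eq_mul, Pi.zero_apply, mul_eq_zero] at h1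
      exact h1.elim ha.2 (hψ0 a)
    · intro b hb hba
      by_cases hgb : g b = 0
      · simp [hgb]
      · have h2 := hamax b (Finset.mem_filter.2 ⟨hb, hgb⟩)
        have h3 : σ.symm b.1 < σ.symm a.1 := by
          refine lt_of_le_of_ne h2 fun h => hba ?_
          exact Subtype.ext (σ.symm.injective h)
        simp [hψ b a.1 h3]
    · intro h
      exact absurd ha.1 h
  have hcard : Fintype.card Λ = finrank K V := by
    apply le_antisymm
    · have hli' : LinearIndependent K (fun a : Λ => (⟨ψ a, hψV a⟩ : V)) := by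
        apply LinearIndependent.of_comp V.subtype
        exact hli
      exact hli'.fintype_card_le_finrank
    · let f : V →ₗ[K] (Λ → K) :=
        { toFun := fun x a => x.1 a.1
          map_add' := fun x y => rfl
          map_smul' := fun c x => rfl }
      have hf : Function.Injective f := by
        rw [injective_iff_map_eq_zero]
        intro x hx
        by_contra hx0
        have hx1 : ∃ i, x.1 i ≠ 0 := by
          by_contra hcon
          push Not at hcon
          exact hx0 (Subtype.ext (funext hcon))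
        obtain ⟨i, hi⟩ := hx1
        obtain ⟨a, hat, hamax⟩ := Finset.exists_max_image (Finset.univ.filter fun b => x.1 b ≠ 0)
          (fun b : ι => σ.symm b) ⟨i, Finset.mem_filter.2 ⟨Finset.mem_univ _, hi⟩⟩
        have ha := (Finset.mem_filter.1 hat).2
        have hmem : ∃ y ∈ V, y a ≠ 0 ∧ ∀ m, σ.symm a < σ.symm m → y m = 0 := by
          refine ⟨x.1, x.2, ha, fun m hm => ?_⟩
          by_contra hxm
          exact absurd (hamax m (Finset.mem_filter.2 ⟨Finset.mem_univ _, hxm⟩)) (not_le.2 hm)
        exact ha (congrFun hx (⟨a, hmem⟩ : Λ))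
      have h := LinearMap.finrank_le_finrank_of_injective hf
      rwa [finrank_fintype_fun_eq_card] at h
  let e : Fin (finrank K V) ≃ Λ := (Fintype.equivFinOfCardEq hcard).symm
  refine ⟨fun j => (e j).1, fun j => ψ (e j), ?_, fun j => hψV _, ?_, fun j m h => hψ _ m h⟩
  · intro i j hij
    exact e.injective (Subtype.ext hij)
  · exact hli.comp e e.injective

end Pool.Agent.Helper16.TM
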