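import Pool.Agent.Helper16.TM.Defs
import Pool.Agent.Helper16.TM.Echelon

/-!
# Block TM-GA: a basis of a space of polynomials adapted to the units at one place

PROOF. For every `i` there is a numbering `σ` of the box `Fin n → Fin E` for which `∑ b, m b * log |e_b i|_v` is
monotone (`Tuple.sort`); there are finitely many numberings, so one `σ` works for almost all `i`
(`Pool.Agent.Helper26.DMC.SU1.ult_finite` or `Ultrafilter`). Take `echelon` for `V` and `σ`. In
`eval (e · i) (ev E (ψ j)) = ∑ m, ψ j m * ∏ b, e b i ^ (m b)` only the `m` with `σ⁻¹ m ≤ σ⁻¹ (lead j)` occur, and for them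
`|∏ b, e b i ^ (m b)|_v ≤ |∏ b, e b i ^ (lead j b)|_v`. `C = log (max 1 ..)` from the number of terms and the
`|ψ j m|_v` (`nv_sum_le` or so in Helper64/Vojta/Places.lean).
-/

namespace Pool.Agent.Helper16.TM

open NumberField Finset Filter Module
open Pool.Agent.Helper64.Vojta (Pl nv sn)
open Pool.Agent.Helper26.DMC (SUnit)
open Pool.Agent.Helper16.TP

theorem h2_nv_pow {K : Type*} [Field K] [NumberField K] (v : Pl K) (x : K) (k : ℕ) :
    nv v (x ^ k) = nv v x ^ k := by
  induction k with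
  | zero => simpa using Pool.Agent.Helper64.Vojta.nv_one v
  | succ k ih => rw [pow_succ, Pool.Agent.Helper64.Vojta.nv_mul, ih, pow_succ]

theorem h2_nv_prod {K : Type*} [Field K] [NumberField K] (v : Pl K) {ι : Type*} (s : Finset ι)
    (f : ι → K) : nv v (∏ b ∈ s, f b) = ∏ b ∈ s, nv v (f b) := by
  classical
  induction s using Finset.induction_on with
  | empty => simpa using Pool.Agent.Helper64.Vojta.nv_one v
  | insert a s ha ih =>
    rw [Finset.prod_insert ha, Pool.Agent.Helper64.Vojta.nv_mul, ih, Finset.prod_insert ha]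

theorem h2_nv_mon {K : Type*} [Field K] [NumberField K] (v : Pl K) {n E : ℕ} (x : Fin n → K)
    (hx : ∀ b, x b ≠ 0) (m : Fin n → Fin E) :
    nv v (∏ b, x b ^ (m b : ℕ)) = Real.exp (∑ b, Real.log (nv v (x b)) * ((m b : ℕ) : ℝ)) := by
  rw [h2_nv_prod, Real.exp_sum]
  refine Finset.prod_congr rfl fun b _ => ?_
  rw [h2_nv_pow, mul_comm, Real.exp_nat_mul, Real.exp_log (Pool.Agent.Helper64.Vojta.nv_pos v (hx b))]

theorem h2_eval_ev {K : Type*} [Field K] {n : ℕ} (E : ℕ) (y : (Fin n → Fin E) → K)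
    (x : Fin n → K) :
    MvPolynomial.eval x (ev E y) = ∑ m, y m * ∏ b, x b ^ (m b : ℕ) := by
  show MvPolynomial.eval x (∑ m, MvPolynomial.monomial
    (Finsupp.equivFunOnFinite.symm fun b => (m b : ℕ)) (y m)) = _
  rw [map_sum]
  refine Finset.sum_congr rfl fun m _ => ?_
  rw [MvPolynomial.eval_monomial, Finsupp.prod_fintype _ _ (fun b => pow_zero _)]
  rfl

theorem adapted {K : Type*} [Field K] [NumberField K] (U : Ultrafilter ℕ)
    (T : Finset (FinitePlace K)) {n : ℕ} (e : Fin n → ℕ → K) (he : ∀ b, SUnit U T (e b)) (E : ℕ)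
    (V : Submodule K ((Fin n → Fin E) → K)) (v : Pl K) :
    ∃ (lead : Fin (finrank K V) → (Fin n → Fin E))
      (ψ : Fin (finrank K V) → ((Fin n → Fin E) → K)) (C : ℝ),
      Function.Injective lead ∧ (∀ j, ψ j ∈ V) ∧ LinearIndependent K ψ ∧
      ∀ᶠ i in (U : Filter ℕ), ∀ j,
        MvPolynomial.eval (fun b => e b i) (ev E (ψ j)) ≠ 0 →
        Real.log (nv v (MvPolynomial.eval (fun b => e b i) (ev E (ψ j)))) ≤
          ∑ b, Real.log (nv v (e b i)) * (lead j b : ℝ) + C := by
  classical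
  set N := Fintype.card (Fin n → Fin E) with hN
  let e0 : Fin N ≃ (Fin n → Fin E) := (Fintype.equivFin (Fin n → Fin E)).symm
  let val : ℕ → (Fin n → Fin E) → ℝ := fun i m => ∑ b, Real.log (nv v (e b i)) * ((m b : ℕ) : ℝ)
  let g : ℕ → (Fin N ≃ (Fin n → Fin E)) := fun i =>
    (Tuple.sort (fun a => val i (e0 a))).trans e0
  obtain ⟨σ, hσ⟩ := Pool.Agent.Helper26.DMC.SU1.ult_finite U Set.univ Set.finite_univ g
    (Eventually.of_forall fun _ => trivial)
  obtain ⟨lead, ψ, hlead, hψV, hli, hz⟩ := echelon V σ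
  set M : ℝ := 1 + ∑ j, ∑ m, nv v (ψ j m) with hM
  have hMj : ∀ j m, nv v (ψ j m) ≤ M := by
    intro j m
    have h1 : nv v (ψ j m) ≤ ∑ m, nv v (ψ j m) :=
      Finset.single_le_sum (f := fun m => nv v (ψ j m))
        (fun m _ => Pool.Agent.Helper64.Vojta.nv_nonneg v _) (Finset.mem_univ m)
    have h2 : (∑ m, nv v (ψ j m)) ≤ ∑ j, ∑ m, nv v (ψ j m) :=
      Finset.single_le_sum (f := fun j => ∑ m, nv v (ψ j m))
        (fun j _ => Finset.sum_nonneg fun m _ => Pool.Agent.Helper64.Vojta.nv_nonneg v _)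
        (Finset.mem_univ j)
    linarith
  have hM1 : 1 ≤ M := by
    have : 0 ≤ ∑ j, ∑ m, nv v (ψ j m) :=
      Finset.sum_nonneg fun j _ => Finset.sum_nonneg fun m _ =>
        Pool.Agent.Helper64.Vojta.nv_nonneg v _
    linarith
  have hA : (0 : ℝ) < ((Finset.univ : Finset (Fin n → Fin E)).card + 1 : ℝ) ^ 2 * M := by
    positivity
  refine ⟨lead, ψ, Real.log (((Finset.univ : Finset (Fin n → Fin E)).card + 1 : ℝ) ^ 2 * M),
    hlead, hψV, hli, ?_⟩
  have hne : ∀ᶠ i in (U : Filter ℕ), ∀ b, e b i ≠ 0 :=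
    eventually_all.mpr fun b => (he b).mono fun i h => h.1
  filter_upwards [hσ, hne] with i hi hi0 j hj
  have hmono : ∀ a b : Fin N, a ≤ b → val i (σ a) ≤ val i (σ b) := by
    intro a b hab
    have h := Tuple.monotone_sort (fun a => val i (e0 a)) hab
    rw [← hi]
    exact h
  have hle : ∀ m, ψ j m ≠ 0 → val i m ≤ val i (lead j) := by
    intro m hm
    have h1 : ¬ (σ.symm (lead j) < σ.symm m) := fun h => hm (hz j m h)
    have h2 := hmono _ _ (not_lt.mp h1)
    simpa using h2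
  have hbound : nv v (MvPolynomial.eval (fun b => e b i) (ev E (ψ j))) ≤
      ((Finset.univ : Finset (Fin n → Fin E)).card + 1 : ℝ) ^ 2 * (M * Real.exp (val i (lead j))) := by
    rw [h2_eval_ev]
    refine Pool.Agent.Helper64.Vojta.nv_sum_le v _ _ _ (by positivity) ?_
    intro m _
    by_cases hm : ψ j m = 0
    · rw [hm, zero_mul, Pool.Agent.Helper64.Vojta.nv_zero]
      positivity
    · rw [Pool.Agent.Helper64.Vojta.nv_mul, h2_nv_mon v (fun b => e b i) hi0 m]
      exact mul_le_mul (hMj j m) (Real.exp_le_exp.mpr (hle m hm)) (Real.exp_pos _).le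
        (by linarith)
  have hpos := Pool.Agent.Helper64.Vojta.nv_pos v hj
  have h3 := Real.log_le_log hpos hbound
  rw [← mul_assoc, Real.log_mul hA.ne' (Real.exp_pos _).ne', Real.log_exp] at h3
  show _ ≤ val i (lead j) + _
  linarith

end Pool.Agent.Helper16.TM
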