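import Pool.Agent.Helper16.TP.KPoly
import Pool.Agent.Helper16.TP.Bdd
import Pool.Agent.Helper16.TP.Units
import Pool.Agent.Helper16.TP.Height

/-!
# Definitions for the theorem on combinations of units without the primitivity hypothesis

`Rep U T F n e G w`: almost everywhere along `U`, `F i` is, up to the nonzero scalar `w i`, the value of the
family `G` (polynomial in `X` over `K[X_1, ..., X_n]`) at the multiplicatively independent `T`-units `e`.
-/

namespace Pool.Agent.Helper16.TM

open NumberField Finset Filter Polynomial
open Pool.Agent.Helper64.Vojta (Pl nv sn)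
open Pool.Agent.Helper26.DMC (SUnit)
open Pool.Agent.Helper16.TP

def Rep {K : Type*} [Field K] [NumberField K] (U : Ultrafilter ℕ) (T : Finset (FinitePlace K))
    (F : ℕ → K[X]) (n : ℕ) (e : Fin n → ℕ → K) (G : (MvPolynomial (Fin n) K)[X])
    (w : ℕ → K) : Prop :=
  (∀ b, SUnit U T (e b)) ∧ MI U e ∧
    ∀ᶠ i in (U : Filter ℕ), w i ≠ 0 ∧ G.map (MvPolynomial.eval fun b => e b i) = C (w i) * F i

/-- The exponents which occur in the coefficients of `G`. -/
noncomputable def expSet {K : Type*} [Field K] {n : ℕ} (G : (MvPolynomial (Fin n) K)[X]) :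
    Finset (Fin n →₀ ℕ) := by
  classical
  exact G.support.biUnion fun s => (G.coeff s).support

/-- The vector of the monomials in `e` which occur in `G`. -/
noncomputable def mons {K : Type*} [Field K] {n : ℕ} (G : (MvPolynomial (Fin n) K)[X])
    (e : Fin n → ℕ → K) (i : ℕ) : expSet G → K :=
  fun m => ∏ b, e b i ^ ((m : Fin n →₀ ℕ) b)

/-- The polynomial with coefficients `y m`, exponents `m` in the box `[0, E)^n`. -/
noncomputable def ev {K : Type*} [Field K] {n : ℕ} (E : ℕ) :
    ((Fin n → Fin E) → K) →ₗ[K] MvPolynomial (Fin n) K where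
  toFun y := ∑ m, MvPolynomial.monomial (Finsupp.equivFunOnFinite.symm fun b => (m b : ℕ)) (y m)
  map_add' := by
    intro x y
    simp [Finset.sum_add_distrib]
  map_smul' := by
    intro a x
    simp [Finset.smul_sum, MvPolynomial.smul_monomial]

/-- The polynomials in the box which lie in the ideal generated by `f` and `g`. -/
noncomputable def VV {K : Type*} [Field K] {n : ℕ} (f g : MvPolynomial (Fin n) K) (E : ℕ) :
    Submodule K ((Fin n → Fin E) → K) :=
  ((Ideal.span {f, g}).restrictScalars K).comap (ev E)

end Pool.Agent.Helper16.TM
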