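import Pool.Agent.Helper16.TM.Defs

/-!
# Block TM-GD: the dimension of the ideal in a box

PROOF. For `c : Fin n → ℕ` let `box c` be the subspace of the polynomials whose exponents `m` satisfy `m b < c b` for all
`b` (a basis: the monomials, so `finrank = ∏ b, c b`). `a b = degreeOf b f`, `c b = degreeOf b g`. `ev E` is injective
with image `box E`; so `finrank (VV f g E) = finrank (box E ⊓ (f, g))`, and
`box E ⊓ (f, g)` contains `f * box (E - a) + g * box (E - c)` (`degreeOf_mul_le`). By
`Submodule.finrank_sup_add_finrank_inf_eq` it is enough that the intersection of `f * box (E - a)` and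
`g * box (E - c)` has dimension at most `∏ (E - a - c)`: if `f A = g B` then `g ∣ A` (`IsRelPrime`; the ring is a UFD, so a
`DecompositionMonoid`), `A = g Q`, and
`degreeOf b Q = degreeOf b A - c b < E - a b - c b` (`MvPolynomial.degreeOf_mul_eq`), so the intersection is contained in
`f * g * box (E - a - c)`.
-/

namespace Pool.Agent.Helper16.TM

open Module

section box60

variable {K : Type*} [Field K] {n : ℕ}

/-- The exponents in a box. -/
def bx60 (c : Fin n → ℕ) : Set (Fin n →₀ ℕ) := {m | ∀ b, m b < c b}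

/-- The exponent with the given coordinates. -/
noncomputable def ex60 (c : Fin n → ℕ) (x : ∀ b, Fin (c b)) : Fin n →₀ ℕ :=
  Finsupp.equivFunOnFinite.symm fun b => (x b : ℕ)

theorem ex60_apply (c : Fin n → ℕ) (x : ∀ b, Fin (c b)) (b : Fin n) : ex60 c x b = x b := rfl

/-- The exponents in a box as a product. -/
noncomputable def bxEquiv60 (c : Fin n → ℕ) : (∀ b, Fin (c b)) ≃ bx60 c where
  toFun x := ⟨ex60 c x, fun b => by rw [ex60_apply]; exact (x b).2⟩
  invFun m b := ⟨m.1 b, m.2 b⟩
  left_inv x := by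
    funext b
    rfl
  right_inv m := by
    apply Subtype.ext
    ext b
    rfl

theorem finite_bx60 (c : Fin n → ℕ) : Finite (bx60 c) := Finite.of_equiv _ (bxEquiv60 c)

theorem card_bx60 (c : Fin n → ℕ) : Nat.card (bx60 c) = ∏ b, c b := by
  rw [← Nat.card_congr (bxEquiv60 c)]
  simp [Nat.card_eq_fintype_card]

/-- The polynomials with exponents in a box. -/
noncomputable def box60 (K : Type*) [Field K] {n : ℕ} (c : Fin n → ℕ) :
    Submodule K (MvPolynomial (Fin n) K) := MvPolynomial.restrictSupport K (bx60 c)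

theorem finrank_box60 (c : Fin n → ℕ) : finrank K (box60 K c) = ∏ b, c b := by
  rw [← card_bx60 c]
  exact Module.finrank_eq_nat_card_basis (MvPolynomial.basisRestrictSupport K (bx60 c))

theorem finite_box60 (c : Fin n → ℕ) : Module.Finite K (box60 K c) := by
  have := finite_bx60 c
  exact Module.Finite.of_basis (MvPolynomial.basisRestrictSupport K (bx60 c))

theorem mem_box60 {c : Fin n → ℕ} {p : MvPolynomial (Fin n) K} :
    p ∈ box60 K c ↔ ∀ m ∈ p.support, ∀ b, m b < c b := by
  unfold box60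
  rw [MvPolynomial.mem_restrictSupport_iff]
  rfl

theorem mem_box60_iff {c : Fin n → ℕ} {p : MvPolynomial (Fin n) K} (hp : p ≠ 0) :
    p ∈ box60 K c ↔ ∀ b, p.degreeOf b < c b := by
  rw [mem_box60]
  constructor
  · intro h b
    obtain ⟨m, hm⟩ := MvPolynomial.support_nonempty.mpr hp
    rw [MvPolynomial.degreeOf_lt_iff (lt_of_le_of_lt (Nat.zero_le _) (h m hm b))]
    exact fun m hm => h m hm b
  · intro h m hm b
    exact lt_of_le_of_lt (MvPolynomial.monomial_le_degreeOf b hm) (h b)

theorem le_range_ev60 (E : ℕ) :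
    box60 K (fun _ : Fin n => E) ≤ LinearMap.range (ev (K := K) (n := n) E) := by
  intro p hp
  rw [mem_box60] at hp
  refine ⟨fun m => p.coeff (ex60 (fun _ => E) m), ?_⟩
  change ∑ m : Fin n → Fin E, MvPolynomial.monomial (ex60 (fun _ => E) m)
    (p.coeff (ex60 (fun _ => E) m)) = p
  classical
  ext d
  rw [MvPolynomial.coeff_sum]
  simp only [MvPolynomial.coeff_monomial]
  by_cases hd : d ∈ bx60 (fun _ : Fin n => E)
  · have h1 : ex60 (fun _ => E) ((bxEquiv60 (fun _ : Fin n => E)).symm ⟨d, hd⟩) = d :=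
      congrArg Subtype.val ((bxEquiv60 (fun _ : Fin n => E)).apply_symm_apply ⟨d, hd⟩)
    rw [Finset.sum_eq_single ((bxEquiv60 (fun _ : Fin n => E)).symm ⟨d, hd⟩)]
    · rw [if_pos h1, h1]
    · intro m _ hm
      rw [if_neg]
      intro h2
      apply hm
      rw [Equiv.eq_symm_apply]
      exact Subtype.ext h2
    · intro h
      exact absurd (Finset.mem_univ _) h
  · have h0 : p.coeff d = 0 := by
      by_contra h
      exact hd fun b => hp d (MvPolynomial.mem_support_iff.mpr h) b
    rw [h0]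
    refine Finset.sum_eq_zero fun m _ => ?_
    rw [if_neg]
    rintro rfl
    exact hd (bxEquiv60 (fun _ : Fin n => E) m).2

theorem ev_injective60 (E : ℕ) : Function.Injective (ev (K := K) (n := n) E) := by
  classical
  rw [injective_iff_map_eq_zero]
  intro y hy
  funext m0
  have h1 : (∑ m : Fin n → Fin E, MvPolynomial.monomial (ex60 (fun _ => E) m) (y m)).coeff
      (ex60 (fun _ => E) m0) = 0 := by
    have h2 : ∑ m : Fin n → Fin E, MvPolynomial.monomial (ex60 (fun _ => E) m) (y m) = 0 := hy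
    rw [h2, MvPolynomial.coeff_zero]
  rw [MvPolynomial.coeff_sum] at h1
  simp only [MvPolynomial.coeff_monomial] at h1
  rw [Finset.sum_eq_single m0] at h1
  · simpa using h1
  · intro m _ hm
    rw [if_neg]
    intro h2
    apply hm
    have h3 : bxEquiv60 (fun _ : Fin n => E) m = bxEquiv60 (fun _ : Fin n => E) m0 :=
      Subtype.ext h2
    exact (bxEquiv60 (fun _ : Fin n => E)).injective h3
  · intro h
    exact absurd (Finset.mem_univ _) h

/-- Multiples of `f` by elements of a box. -/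
noncomputable def mbox60 (f : MvPolynomial (Fin n) K) (c : Fin n → ℕ) :
    Submodule K (MvPolynomial (Fin n) K) := (box60 K c).map (LinearMap.mulLeft K f)

theorem finite_mbox60 (f : MvPolynomial (Fin n) K) (c : Fin n → ℕ) :
    Module.Finite K (mbox60 f c) := by
  have := finite_box60 (K := K) c
  unfold mbox60
  infer_instance

theorem finrank_mbox60 {f : MvPolynomial (Fin n) K} (hf : f ≠ 0) (c : Fin n → ℕ) :
    finrank K (mbox60 f c) = ∏ b, c b := by
  have hinj : Function.Injective (LinearMap.mulLeft K f) := fun x y hxy =>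
    mul_left_cancel₀ hf hxy
  rw [← finrank_box60 (K := K) c]
  exact (LinearEquiv.finrank_eq (Submodule.equivMapOfInjective _ hinj (box60 K c))).symm

theorem mem_mbox60 {f p : MvPolynomial (Fin n) K} {c : Fin n → ℕ} :
    p ∈ mbox60 f c ↔ ∃ A ∈ box60 K c, f * A = p := by
  unfold mbox60
  rw [Submodule.mem_map]
  rfl

theorem mbox60_le_box {f : MvPolynomial (Fin n) K} (hf : f ≠ 0) (E : ℕ) :
    mbox60 f (fun b => E - f.degreeOf b) ≤ box60 K (fun _ => E) := by
  intro p hp
  obtain ⟨A, hA, rfl⟩ := mem_mbox60.mp hp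
  by_cases hA0 : A = 0
  · rw [hA0, mul_zero]
    exact Submodule.zero_mem _
  rw [mem_box60_iff hA0] at hA
  rw [mem_box60_iff (mul_ne_zero hf hA0)]
  intro b
  rw [MvPolynomial.degreeOf_mul_eq hf hA0]
  have := hA b
  omega

theorem mbox60_inf_le {f g : MvPolynomial (Fin n) K} (hg : g ≠ 0)
    (hfg : IsRelPrime f g) (E : ℕ) :
    mbox60 f (fun b => E - f.degreeOf b) ⊓ mbox60 g (fun b => E - g.degreeOf b) ≤
      mbox60 (f * g) (fun b => E - f.degreeOf b - g.degreeOf b) := by
  rintro p ⟨h1, h2⟩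
  obtain ⟨A, hA, rfl⟩ := mem_mbox60.mp h1
  obtain ⟨B, hB, hAB⟩ := mem_mbox60.mp h2
  have hdvd : g ∣ A := by
    have h3 : g ∣ f * A := ⟨B, hAB.symm⟩
    exact hfg.symm.dvd_of_dvd_mul_left h3
  obtain ⟨Q, rfl⟩ := hdvd
  refine mem_mbox60.mpr ⟨Q, ?_, by ring⟩
  by_cases hQ : Q = 0
  · rw [hQ]
    exact Submodule.zero_mem _
  rw [mem_box60_iff (mul_ne_zero hg hQ)] at hA
  rw [mem_box60_iff hQ]
  intro b
  have := hA b
  rw [MvPolynomial.degreeOf_mul_eq hg hQ] at this
  omega

end box60

theorem dim_VV {K : Type*} [Field K] {n : ℕ} (f g : MvPolynomial (Fin n) K) (hf : f ≠ 0)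
    (hg : g ≠ 0) (hfg : IsRelPrime f g) (E : ℕ)
    (hE : ∀ b, f.degreeOf b + g.degreeOf b ≤ E) :
    (∏ b, ((E : ℝ) - f.degreeOf b)) + (∏ b, ((E : ℝ) - g.degreeOf b)) -
      (∏ b, ((E : ℝ) - f.degreeOf b - g.degreeOf b)) ≤ finrank K (VV f g E) := by
  have hcf : (((∏ b, (E - f.degreeOf b) : ℕ)) : ℝ) = ∏ b, ((E : ℝ) - f.degreeOf b) := by
    rw [Nat.cast_prod]
    refine Finset.prod_congr rfl fun b _ => ?_
    have := hE b
    rw [Nat.cast_sub (by omega)]
  have hcg : (((∏ b, (E - g.degreeOf b) : ℕ)) : ℝ) = ∏ b, ((E : ℝ) - g.degreeOf b) := by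
    rw [Nat.cast_prod]
    refine Finset.prod_congr rfl fun b _ => ?_
    have := hE b
    rw [Nat.cast_sub (by omega)]
  have hcfg : (((∏ b, (E - f.degreeOf b - g.degreeOf b) : ℕ)) : ℝ) =
      ∏ b, ((E : ℝ) - f.degreeOf b - g.degreeOf b) := by
    rw [Nat.cast_prod]
    refine Finset.prod_congr rfl fun b _ => ?_
    have := hE b
    rw [Nat.cast_sub (by omega), Nat.cast_sub (by omega)]
  rw [← hcf, ← hcg, ← hcfg]
  have := finite_mbox60 f (fun b => E - f.degreeOf b)
  have := finite_mbox60 g (fun b => E - g.degreeOf b)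
  have := finite_mbox60 (f * g) (fun b => E - f.degreeOf b - g.degreeOf b)
  have h1 := Submodule.finrank_sup_add_finrank_inf_eq
    (mbox60 f (fun b => E - f.degreeOf b)) (mbox60 g (fun b => E - g.degreeOf b))
  rw [finrank_mbox60 hf, finrank_mbox60 hg] at h1
  have h2 := Submodule.finrank_mono (mbox60_inf_le hg hfg E)
  rw [finrank_mbox60 (mul_ne_zero hf hg)] at h2
  have h3 : mbox60 f (fun b => E - f.degreeOf b) ⊔ mbox60 g (fun b => E - g.degreeOf b) ≤
      (VV f g E).map (ev E) := by
    unfold VV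
    rw [Submodule.map_comap_eq]
    refine le_inf ((sup_le (mbox60_le_box hf E) (mbox60_le_box hg E)).trans (le_range_ev60 E)) ?_
    refine sup_le ?_ ?_
    · intro p hp
      obtain ⟨A, -, rfl⟩ := mem_mbox60.mp hp
      exact Ideal.mul_mem_right _ _ (Ideal.subset_span (by simp))
    · intro p hp
      obtain ⟨A, -, rfl⟩ := mem_mbox60.mp hp
      exact Ideal.mul_mem_right _ _ (Ideal.subset_span (by simp))
  have h4 := Submodule.finrank_mono h3
  have h5 : finrank K ((VV f g E).map (ev E)) = finrank K (VV f g E) :=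
    (LinearEquiv.finrank_eq (Submodule.equivMapOfInjective _ (ev_injective60 E) (VV f g E))).symm
  rw [h5] at h4
  have h6 : (∏ b, (E - f.degreeOf b)) + (∏ b, (E - g.degreeOf b)) ≤
      finrank K (VV f g E) + ∏ b, (E - f.degreeOf b - g.degreeOf b) := by
    omega
  have h7 : (((∏ b, (E - f.degreeOf b) : ℕ)) : ℝ) + ((∏ b, (E - g.degreeOf b) : ℕ) : ℝ) ≤
      (finrank K (VV f g E) : ℝ) + ((∏ b, (E - f.degreeOf b - g.degreeOf b) : ℕ) : ℝ) := by
    exact_mod_cast h6
  linarith

end Pool.Agent.Helper16.TM
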