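import Mathlib

/-!
# Block TM-GL: a limit

PROOF. `N(E) = ∏ (E - a b) + ∏ (E - c b) - ∏ (E - a b - c b)`; with `x = 1 / E`,
`N(E) / E ^ n = ∏ (1 - a b x) + ∏ (1 - c b x) - ∏ (1 - (a b + c b) x) =: h x`, `h 0 = 1`, and the derivative of `h` at `0` is
`- ∑ a b - ∑ c b + ∑ (a b + c b) = 0`. So `(1 - h x) / x → 0` and `h x → 1` for `x → 0`.
-/

namespace Pool.Agent.Helper16.TM

open Filter Topology

lemma hasDerivAt_prod67 {n : ℕ} (a : Fin n → ℝ) :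
    HasDerivAt (fun x : ℝ => ∏ b, (1 - a b * x)) (- ∑ b, a b) 0 := by
  have h : ∀ b ∈ (Finset.univ : Finset (Fin n)),
      HasDerivAt (fun x : ℝ => 1 - a b * x) (- a b) 0 := by
    intro b _
    have h1 := ((hasDerivAt_id (0 : ℝ)).const_mul (a b)).const_sub 1
    simpa using h1
  have h2 := HasDerivAt.fun_finsetProd h
  have h3 : (∑ i, (∏ j ∈ Finset.univ.erase i, (1 - a j * 0)) • -a i) = - ∑ b, a b := by
    rw [← Finset.sum_neg_distrib]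
    refine Finset.sum_congr rfl fun b _ => ?_
    simp
  rw [h3] at h2
  exact h2

lemma prod_scale67 {n : ℕ} (a : Fin n → ℝ) {E : ℝ} (hE : E ≠ 0) :
    ∏ b, (E - a b) = E ^ n * ∏ b, (1 - a b * E⁻¹) := by
  have : E ^ n = ∏ _b : Fin n, E := by simp
  rw [this, ← Finset.prod_mul_distrib]
  refine Finset.prod_congr rfl fun b _ => ?_
  field_simp

theorem lim_box {n : ℕ} (a c : Fin n → ℝ) (η : ℝ) (hη : 0 < η) :
    ∃ E₀ : ℕ, ∀ E : ℕ, E₀ ≤ E →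
      0 < (∏ b, ((E : ℝ) - a b)) + (∏ b, ((E : ℝ) - c b)) - ∏ b, ((E : ℝ) - a b - c b) ∧
      ((E : ℝ) ^ n - ((∏ b, ((E : ℝ) - a b)) + (∏ b, ((E : ℝ) - c b)) -
        ∏ b, ((E : ℝ) - a b - c b))) * E ≤
      η * ((∏ b, ((E : ℝ) - a b)) + (∏ b, ((E : ℝ) - c b)) - ∏ b, ((E : ℝ) - a b - c b)) := by
  set h : ℝ → ℝ := fun x => (∏ b, (1 - a b * x)) + (∏ b, (1 - c b * x)) -
    ∏ b, (1 - (a b + c b) * x) with hh
  have hder : HasDerivAt h 0 0 := by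
    have h1 := ((hasDerivAt_prod67 a).add (hasDerivAt_prod67 c)).sub
      (hasDerivAt_prod67 (fun b => a b + c b))
    have h3 : (-∑ b, a b + -∑ b, c b - -∑ b, (a b + c b)) = 0 := by
      rw [Finset.sum_add_distrib]
      ring
    rw [h3] at h1
    exact h1
  have h0 : h 0 = 1 := by simp [hh]
  have hcont : Tendsto h (𝓝 0) (𝓝 1) := by
    have := hder.continuousAt.tendsto
    rwa [h0] at this
  have hslope := hasDerivAt_iff_tendsto_slope.1 hder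
  have hinv : Tendsto (fun E : ℕ => ((E : ℝ))⁻¹) atTop (𝓝[>] 0) :=
    tendsto_inv_atTop_nhdsGT_zero.comp tendsto_natCast_atTop_atTop
  have hinv' : Tendsto (fun E : ℕ => ((E : ℝ))⁻¹) atTop (𝓝[≠] 0) :=
    hinv.mono_right (nhdsWithin_mono _ fun x hx => ne_of_gt hx)
  have hinv0 : Tendsto (fun E : ℕ => ((E : ℝ))⁻¹) atTop (𝓝 0) :=
    hinv.mono_right nhdsWithin_le_nhds
  have e1 : ∀ᶠ E : ℕ in atTop, - (η / 2) < slope h 0 ((E : ℝ))⁻¹ :=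
    (hslope.comp hinv').eventually_const_lt (by linarith)
  have e2 : ∀ᶠ E : ℕ in atTop, (1 / 2 : ℝ) < h ((E : ℝ))⁻¹ :=
    (hcont.comp hinv0).eventually_const_lt (by norm_num)
  obtain ⟨E₀, hE₀⟩ := eventually_atTop.1 (e1.and (e2.and (eventually_ge_atTop 1)))
  refine ⟨E₀, fun E hE => ?_⟩
  obtain ⟨f1, f2, f3⟩ := hE₀ E hE
  have hEpos : (0 : ℝ) < E := by exact_mod_cast f3
  have key : (∏ b, ((E : ℝ) - a b)) + (∏ b, ((E : ℝ) - c b)) - ∏ b, ((E : ℝ) - a b - c b)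
      = (E : ℝ) ^ n * h ((E : ℝ))⁻¹ := by
    have h3 : ∏ b, ((E : ℝ) - a b - c b) = (E : ℝ) ^ n * ∏ b, (1 - (a b + c b) * (E : ℝ)⁻¹) := by
      rw [← prod_scale67 (fun b => a b + c b) hEpos.ne']
      refine Finset.prod_congr rfl fun b _ => by ring
    rw [prod_scale67 a hEpos.ne', prod_scale67 c hEpos.ne', h3, hh]
    ring
  have hpow : (0 : ℝ) < (E : ℝ) ^ n := pow_pos hEpos n
  rw [key]
  refine ⟨mul_pos hpow (by linarith), ?_⟩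
  have hs : slope h 0 ((E : ℝ))⁻¹ = (h ((E : ℝ))⁻¹ - 1) * E := by
    rw [slope_def_field, h0, sub_zero, div_inv_eq_mul]
  rw [hs] at f1
  have h4 : (1 - h ((E : ℝ))⁻¹) * E ≤ η * h ((E : ℝ))⁻¹ := by
    nlinarith
  calc ((E : ℝ) ^ n - (E : ℝ) ^ n * h ((E : ℝ))⁻¹) * E
      = (E : ℝ) ^ n * ((1 - h ((E : ℝ))⁻¹) * E) := by ring
    _ ≤ (E : ℝ) ^ n * (η * h ((E : ℝ))⁻¹) := mul_le_mul_of_nonneg_left h4 hpow.le
    _ = η * ((E : ℝ) ^ n * h ((E : ℝ))⁻¹) := by ring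

end Pool.Agent.Helper16.TM
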