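import Pool.Agent.Helper16.TM.Defs

/-!
# Block TM-GO: comparison of the contributions outside `T`

PROOF. `X = (x_j(e_i))_j`, `Y = (y_l(e_i))_l`. Outside `T` (finite places): `|Y|_v ≤ c_v |X|_v` with
`c_v = max 1 (max of |coefficient|_v over the coefficients of all the A l j)` (the `e_b` are units at `v`), and
`c_v = 1` for almost all `v`. `vH X - lsum T (log vn v X)` is the sum over the finite places outside `T` of `log vn v X`
(see `gsum_eq_of_S` in Helper26/DMC/SU1.lean, `gsum_add`, `FinS`). If `Y ≠ 0` then `X ≠ 0`.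
`C = ∑ log c_v`.
-/

namespace Pool.Agent.Helper16.TM

open NumberField Finset Filter
open Pool.Agent.Helper64.Vojta (Pl nv sn)
open Pool.Agent.Helper26.DMC (SUnit)
open Pool.Agent.V2 (vn vH)
open Pool.Agent.Helper16.TP

open Classical in
theorem h53_gsum_sub {K : Type*} [Field K] [NumberField K] (T : Finset (FinitePlace K))
    (g : Pl K → ℝ) (hg : Pool.Agent.V2.FinS g) :
    Pool.Agent.V2.gsum g - lsum T g = ∑ᶠ v : FinitePlace K, (if v ∈ T then 0 else g (.inr v)) := by
  have h1 : Pool.Agent.V2.FinS (K := K) (fun v => match v with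
      | .inl v => g (.inl v)
      | .inr v => if v ∈ T then g (.inr v) else 0) := by
    refine Set.Finite.subset hg fun v hv => ?_
    rw [Function.mem_support] at hv ⊢
    intro h0
    apply hv
    simp only
    split_ifs
    · exact h0
    · rfl
  have h2 : Pool.Agent.V2.FinS (K := K) (fun v => match v with
      | .inl _ => 0
      | .inr v => if v ∈ T then 0 else g (.inr v)) := by
    refine Set.Finite.subset hg fun v hv => ?_
    rw [Function.mem_support] at hv ⊢
    intro h0
    apply hv
    simp only
    split_ifs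
    · rfl
    · exact h0
  have h3 := Pool.Agent.V2.gsum_add h1 h2
  have h4 : (fun v : Pl K => (match v with
      | .inl v => g (.inl v)
      | .inr v => if v ∈ T then g (.inr v) else 0 : ℝ) + (match v with
      | .inl _ => 0
      | .inr v => if v ∈ T then 0 else g (.inr v) : ℝ)) = g := by
    funext v
    rcases v with v | v
    · simp
    · simp only
      split_ifs <;> simp
  rw [h4] at h3
  rw [h3]
  have h5 := Pool.Agent.Helper26.DMC.SU1.gsum_eq_of_S (K := K) T (fun v => match v with
      | .inl v => g (.inl v)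
      | .inr v => if v ∈ T then g (.inr v) else 0) (fun v hv => by simp [hv])
  rw [h5]
  unfold lsum
  have h6 : ∑ v ∈ T, (if v ∈ T then g (.inr v) else 0) = ∑ v ∈ T, g (.inr v) :=
    Finset.sum_congr rfl fun v hv => by simp [hv]
  simp only
  rw [h6]
  unfold Pool.Agent.V2.gsum
  simp

theorem out_le {K : Type*} [Field K] [NumberField K] (U : Ultrafilter ℕ)
    (T : Finset (FinitePlace K)) {n : ℕ} (e : Fin n → ℕ → K) (he : ∀ b, SUnit U T (e b))
    {ι κ : Type*} [Fintype ι] [Fintype κ] (x : ι → MvPolynomial (Fin n) K)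
    (y : κ → MvPolynomial (Fin n) K) (A : κ → ι → MvPolynomial (Fin n) K)
    (hA : ∀ l, y l = ∑ j, A l j * x j) :
    ∃ C : ℝ, ∀ᶠ i in (U : Filter ℕ), (fun l => MvPolynomial.eval (fun b => e b i) (y l)) ≠ 0 →
      vH (fun l => MvPolynomial.eval (fun b => e b i) (y l)) -
        (lsum T fun v => Real.log (vn v fun l => MvPolynomial.eval (fun b => e b i) (y l))) ≤
      vH (fun j => MvPolynomial.eval (fun b => e b i) (x j)) -
        (lsum T fun v => Real.log (vn v fun j => MvPolynomial.eval (fun b => e b i) (x j))) + C := by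
  classical
  -- the vector of all the coefficients and 1
  let M : Finset (Fin n →₀ ℕ) := Finset.univ.biUnion fun l : κ =>
    Finset.univ.biUnion fun j : ι => (A l j).support
  let B : Option (κ × ι × M) → K := fun o => match o with
    | none => 1
    | some (l, j, m) => (A l j).coeff (m : Fin n →₀ ℕ)
  have hB : B ≠ 0 := by
    intro h
    have := congrFun h none
    exact one_ne_zero this
  have hcf := Pool.Agent.V2.finS_vn hB
  have hc1 : ∀ v : Pl K, 1 ≤ vn v B := by
    intro v
    have := Pool.Agent.V2.le_vn v B none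
    have h1 : nv v (B none) = 1 := Pool.Agent.Helper64.Vojta.nv_one v
    rwa [h1] at this
  have hcf2 : Set.Finite (Function.support fun v : FinitePlace K =>
      (if v ∈ T then 0 else Real.log (vn (.inr v) B))) := by
    refine Set.Finite.subset hcf fun v hv => ?_
    rw [Function.mem_support] at hv ⊢
    intro h0
    apply hv
    split_ifs
    · rfl
    · exact h0
  refine ⟨∑ᶠ v : FinitePlace K, (if v ∈ T then 0 else Real.log (vn (.inr v) B)), ?_⟩
  have he' : ∀ᶠ i in (U : Filter ℕ), ∀ b, e b i ≠ 0 ∧
      ∀ v : FinitePlace K, v ∉ T → v (e b i) = 1 := eventually_all.2 fun b => he b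
  filter_upwards [he'] with i hi hY
  set X : ι → K := fun j => MvPolynomial.eval (fun b => e b i) (x j) with hXd
  set Y : κ → K := fun l => MvPolynomial.eval (fun b => e b i) (y l) with hYd
  have hYX : ∀ l, Y l = ∑ j, MvPolynomial.eval (fun b => e b i) (A l j) * X j := by
    intro l
    simp only [hYd, hXd]
    rw [hA l, map_sum]
    refine Finset.sum_congr rfl fun j _ => ?_
    rw [map_mul]
  have hX : X ≠ 0 := by
    intro h
    apply hY
    funext l
    rw [hYX l]
    refine Finset.sum_eq_zero fun j _ => ?_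
    rw [congrFun h j]
    simp
  have hYf := Pool.Agent.V2.finS_vn hY
  have hXf := Pool.Agent.V2.finS_vn hX
  have e1 := h53_gsum_sub T (fun v => Real.log (vn v Y)) hYf
  have e2 := h53_gsum_sub T (fun v => Real.log (vn v X)) hXf
  unfold vH
  rw [e1, e2]
  have hXf2 : Set.Finite (Function.support fun v : FinitePlace K =>
      (if v ∈ T then 0 else Real.log (vn (.inr v) X))) := by
    refine Set.Finite.subset hXf fun v hv => ?_
    rw [Function.mem_support] at hv ⊢
    intro h0
    apply hv
    split_ifs
    · rfl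
    · exact h0
  have hYf2 : Set.Finite (Function.support fun v : FinitePlace K =>
      (if v ∈ T then 0 else Real.log (vn (.inr v) Y))) := by
    refine Set.Finite.subset hYf fun v hv => ?_
    rw [Function.mem_support] at hv ⊢
    intro h0
    apply hv
    split_ifs
    · rfl
    · exact h0
  have hadd := finsum_add_distrib (f := fun v : FinitePlace K =>
      (if v ∈ T then 0 else Real.log (vn (.inr v) X) : ℝ)) (g := fun v : FinitePlace K =>
      (if v ∈ T then 0 else Real.log (vn (.inr v) B) : ℝ)) hXf2 hcf2
  rw [← hadd]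
  refine finsum_le_finsum' hYf2 ?_ ?_
  · exact Function.HasFiniteSupport.add hXf2 hcf2
  · intro v
    by_cases hv : v ∈ T
    · simp [hv]
    simp only [hv, if_false]
    have hAe : ∀ l j, nv (.inr v) (MvPolynomial.eval (fun b => e b i) (A l j)) ≤ vn (.inr v) B := by
      intro l j
      rw [MvPolynomial.eval_eq']
      refine Pool.Agent.Helper64.Vojta.nv_sum_le_inr v _ _ _ (by linarith [hc1 (.inr v)]) ?_
      intro m hm
      have hmM : m ∈ M := Finset.mem_biUnion.2 ⟨l, Finset.mem_univ _,
        Finset.mem_biUnion.2 ⟨j, Finset.mem_univ _, hm⟩⟩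
      have hpr : nv (.inr v) (∏ b, e b i ^ m b) = 1 := by
        change v (∏ b, e b i ^ m b) = 1
        rw [map_prod]
        refine Finset.prod_eq_one fun b _ => ?_
        rw [map_pow, (hi b).2 v hv, one_pow]
      rw [Pool.Agent.Helper64.Vojta.nv_mul, hpr, mul_one]
      exact Pool.Agent.V2.le_vn (.inr v) B (some (l, j, ⟨m, hmM⟩))
    have hle : vn (.inr v) Y ≤ vn (.inr v) X * vn (.inr v) B := by
      refine Pool.Agent.V2.vn_le _ _ (mul_nonneg (Pool.Agent.V2.vn_pos _ hX).le
        (by linarith [hc1 (.inr v)])) ?_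
      intro l
      rw [hYX l]
      refine Pool.Agent.Helper64.Vojta.nv_sum_le_inr v _ _ _
        (mul_nonneg (Pool.Agent.V2.vn_pos _ hX).le (by linarith [hc1 (.inr v)])) ?_
      intro j _
      rw [Pool.Agent.Helper64.Vojta.nv_mul, mul_comm]
      exact mul_le_mul (Pool.Agent.V2.le_vn _ X j) (hAe l j)
        (Pool.Agent.Helper64.Vojta.nv_nonneg _ _) (Pool.Agent.V2.vn_pos _ hX).le
    rw [← Real.log_mul (Pool.Agent.V2.vn_pos _ hX).ne' (Pool.Agent.V2.vn_pos _ hB).ne']
    exact Real.log_le_log (Pool.Agent.V2.vn_pos _ hY) hle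

end Pool.Agent.Helper16.TM
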