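import Pool.Agent.Helper16.TM.Adapt
import Pool.Agent.Helper16.TM.Out
import Pool.Agent.Helper16.TM.Dim
import Pool.Agent.Helper16.TM.Lim

/-!
# Block TM-GS: the greatest common divisor of the values of two coprime polynomials

Same technique (ultrafilter form of the subspace theorem, `Pool.Agent.Helper26.DMC.subspace_stub`) as in
`Pool.Agent.Helper16.TP.lower_lin` (file TP/LowerLin.lean, by helper11, copy its bookkeeping).

PROOF. Let `x_i = ![f(e_i), g(e_i)]`, `M` = number of infinite places + `#T`. Suppose the claim fails; then almost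
everywhere (*) `vH x_i - lsum T (log vn v x_i) < - δ t_i`. Rescale: `s = (|B| + 1) t`, so `|log |e_b|_v| ≤ s`; let
`E_v b` be the limit of `log |e_b|_v / s` (`SU1.exps`), so `|E_v b| ≤ 1`, `E_v b = 0` for `v ∉ T`, `gsum_v E_v b = 0`.
Choose `η` small; `lim_box` and `dim_VV` give `E` such that for `V = VV f g E`, `N = finrank K V`: `0 < N` and
`(E ^ n - N) * E ≤ η * N`. Let `φ : Fin N → V` be a basis, `y_i = (eval e_i (ev E (φ l)))_l : Fin N → K`.
For every `v` infinite or in `T` take `lead_v, ψ_v, C_v` from `adapted`; `ψ_v j = ∑ l, A_v j l • φ l` with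
`det A_v ≠ 0`. Forms: `A_v` at these `v`, the identity at the other places. Exponents: `c v j = ∑ b, (lead_v j b) * E_v b` for
`v` infinite or in `T` (minus `Δ / N` for all `j` at one fixed infinite place `v₀`), and `0` at the other places, where
`Δ = ∑_v ∑_j ∑_b (lead_v j b) E_v b`. So `deg c = 0`. As `∑_v ∑_{all m in the box} ∑_b m_b E_v b = 0`
and `lead_v` is injective, `Δ = - ∑_v ∑_{m not in range lead_v} ∑_b m_b E_v b ≤ M (E ^ n - N) n E ≤ M n η N`.
Twisted height of `y_i`: at `v` infinite or in `T` the logarithm of the local factor is `≤ ε s` (plus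
`(Δ / N) s` at `v₀`) almost everywhere, for every `ε > 0` (if the value is `0` the factor is `0`; not all values are `0` by `li`);
the places outside `T` contribute `vH y_i - lsum T (log vn v y_i) ≤ vH x_i - lsum T (log vn v x_i) + C < - δ t_i + C` (`out_le`,
(*)). Total: `≤ - δ'' s`. `subspace_stub` gives a proper subspace which contains `y_i` almost everywhere, i.e. a nonzero
`y ∈ V` with `eval e_i (ev E y) = 0` almost everywhere; `ev E y ≠ 0` (`ev` is injective), a contradiction to `li`.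
-/

namespace Pool.Agent.Helper16.TM

open NumberField Finset Filter Module
open Pool.Agent.Helper64.Vojta (Pl nv sn)
open Pool.Agent.Helper26.DMC (SUnit)
open Pool.Agent.V2 (vn vH)
open Pool.Agent.Helper16.TP

namespace GcdH40

open Pool.Agent.V2 Pool.Agent.Helper26.DMC Pool.Agent.Helper26.DMC.SU1 Topology
open Pool.Agent.Helper64.Vojta (nv_nonneg nv_mul nv_one nv_zero nv_inv)

section alg

variable {K : Type*} [Field K]

theorem coeff_ev {n E : ℕ} (y : (Fin n → Fin E) → K) (m : Fin n → Fin E) :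
    (ev E y).coeff (Finsupp.equivFunOnFinite.symm fun b => (m b : ℕ)) = y m := by
  change MvPolynomial.coeff _ (∑ m' : Fin n → Fin E, MvPolynomial.monomial _ (y m')) = _
  rw [MvPolynomial.coeff_sum, Finset.sum_eq_single m]
  · rw [MvPolynomial.coeff_monomial, if_pos rfl]
  · intro m' _ hne
    rw [MvPolynomial.coeff_monomial, if_neg]
    intro h
    apply hne
    funext b
    have h1 := DFunLike.congr_fun h b
    exact Fin.ext (by simpa using h1)
  · simp

theorem ev_inj {n E : ℕ} : Function.Injective (ev (K := K) (n := n) E) := by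
  intro x y h
  funext m
  rw [← coeff_ev x m, h, coeff_ev]

theorem ev_ne {n E : ℕ} {x : (Fin n → Fin E) → K} (hx : x ≠ 0) : ev E x ≠ 0 := by
  intro h
  exact hx (ev_inj (h.trans (map_zero _).symm))

theorem eval_lin {n E N : ℕ} (a : Fin n → K) (c : Fin N → K)
    (φ : Fin N → ((Fin n → Fin E) → K)) :
    MvPolynomial.eval a (ev E (∑ l, c l • φ l)) =
      ∑ l, c l * MvPolynomial.eval a (ev E (φ l)) := by
  rw [map_sum, map_sum]
  refine Finset.sum_congr rfl fun l _ => ?_
  rw [map_smul, MvPolynomial.smul_eval]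

theorem det_ne {N : ℕ} {M : Type*} [AddCommGroup M] [Module K M] (V : Submodule K M)
    (φ : Basis (Fin N) K V) (ψ : Fin N → M) (h : ∀ j, ψ j ∈ V) (hli : LinearIndependent K ψ) :
    (Matrix.of fun j l => φ.repr ⟨ψ j, h j⟩ l).det ≠ 0 := by
  have h1 : LinearIndependent K (fun j => (⟨ψ j, h j⟩ : V)) :=
    LinearIndependent.of_comp V.subtype hli
  have h2 : LinearIndependent K (fun j => φ.equivFun ⟨ψ j, h j⟩) :=
    h1.map' φ.equivFun.toLinearMap (LinearEquiv.ker _)
  have h3 : IsUnit (Matrix.of fun j l => φ.repr ⟨ψ j, h j⟩ l) := by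
    rw [← Matrix.linearIndependent_rows_iff_isUnit]
    exact h2
  exact ((Matrix.isUnit_iff_isUnit_det _).1 h3).ne_zero

theorem repr_sum {N : ℕ} {M : Type*} [AddCommGroup M] [Module K M] (V : Submodule K M)
    (φ : Basis (Fin N) K V) (x : M) (h : x ∈ V) :
    ∑ l, (φ.repr ⟨x, h⟩ l) • (φ l : M) = x := by
  have h1 := congrArg V.subtype (φ.sum_repr ⟨x, h⟩)
  rw [map_sum] at h1
  simp only [map_smul, Submodule.subtype_apply] at h1
  exact h1

end alg

variable {K : Type*} [Field K] [NumberField K]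

open Classical in
/-- the system of forms -/
noncomputable def Fm {N : ℕ} (T : Finset (FinitePlace K)) (A : Pl K → Matrix (Fin N) (Fin N) K)
    (hA : ∀ v, (A v).det ≠ 0) : Frm K (Fin N) where
  S := T
  L := fun v => if ∃ w : FinitePlace K, v = .inr w ∧ w ∉ T then 1 else A v
  hL := by
    intro v
    split_ifs
    · simp
    · exact hA v
  hS := by
    intro v hv
    rw [if_pos ⟨v, rfl, hv⟩]

theorem Fm_inl {N : ℕ} (T : Finset (FinitePlace K)) (A : Pl K → Matrix (Fin N) (Fin N) K)
    (hA : ∀ v, (A v).det ≠ 0) (v : InfinitePlace K) : (Fm T A hA).L (.inl v) = A (.inl v) := by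
  unfold Fm
  simp only
  rw [if_neg]
  rintro ⟨w, hw, -⟩
  cases hw

theorem Fm_inr {N : ℕ} (T : Finset (FinitePlace K)) (A : Pl K → Matrix (Fin N) (Fin N) K)
    (hA : ∀ v, (A v).det ≠ 0) (v : FinitePlace K) (hv : v ∈ T) :
    (Fm T A hA).L (.inr v) = A (.inr v) := by
  unfold Fm
  simp only
  rw [if_neg]
  rintro ⟨w, hw, hw'⟩
  have : v = w := Sum.inr_injective hw
  rw [← this] at hw'
  exact hw' hv

theorem Fm_out {N : ℕ} (T : Finset (FinitePlace K)) (A : Pl K → Matrix (Fin N) (Fin N) K)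
    (hA : ∀ v, (A v).det ≠ 0) (v : FinitePlace K) (hv : v ∉ T) :
    (Fm T A hA).L (.inr v) = 1 := (Fm T A hA).hS v hv

theorem lsum_mono (T : Finset (FinitePlace K)) {f g : Pl K → ℝ}
    (h1 : ∀ v : InfinitePlace K, f (.inl v) ≤ g (.inl v)) (h2 : ∀ v ∈ T, f (.inr v) ≤ g (.inr v)) :
    lsum T f ≤ lsum T g := by
  unfold lsum
  exact add_le_add (Finset.sum_le_sum fun v _ => h1 v) (Finset.sum_le_sum fun v hv => h2 v hv)

theorem lsum_add' (T : Finset (FinitePlace K)) (f g : Pl K → ℝ) :
    lsum T (fun v => f v + g v) = lsum T f + lsum T g := by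
  unfold lsum
  simp only [sum_add_distrib]
  ring

theorem lsum_const (T : Finset (FinitePlace K)) (a : ℝ) :
    lsum T (fun _ => a) = (Fintype.card (InfinitePlace K) + T.card : ℝ) * a := by
  unfold lsum
  rw [Finset.sum_const, Finset.sum_const, Finset.card_univ, nsmul_eq_mul, nsmul_eq_mul]
  ring

/-- the bound for the total exponent -/
theorem delta_le {n E N : ℕ} (T : Finset (FinitePlace K)) (ex : Fin n → Pl K → ℝ)
    (h0 : ∀ b, ∀ v : FinitePlace K, v ∉ T → ex b (.inr v) = 0) (hg : ∀ b, gsum (ex b) = 0)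
    (h1 : ∀ b v, |ex b v| ≤ 1) (lead : Pl K → Fin N → (Fin n → Fin E))
    (hl : ∀ v, Function.Injective (lead v)) :
    gsum (fun v => ∑ j, ∑ b, (lead v j b : ℝ) * ex b v) ≤
      (Fintype.card (InfinitePlace K) + T.card : ℝ) * (((E : ℝ) ^ n - N) * (n * E)) := by
  classical
  -- values of one monomial
  have hw : ∀ (v : Pl K) (m : Fin n → Fin E), -(n * E : ℝ) ≤ ∑ b, (m b : ℝ) * ex b v := by
    intro v m
    have h2 : ∑ _b : Fin n, (-(E : ℝ)) ≤ ∑ b, (m b : ℝ) * ex b v := by
      refine Finset.sum_le_sum fun b _ => ?_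
      have h3 : ((m b : ℕ) : ℝ) ≤ E := by exact_mod_cast (m b).2.le
      have h4 := abs_le.1 (h1 b v)
      have h5 : (0 : ℝ) ≤ ((m b : ℕ) : ℝ) := Nat.cast_nonneg _
      nlinarith
    rw [Finset.sum_const, Finset.card_univ, Fintype.card_fin, nsmul_eq_mul] at h2
    linarith
  have hv : ∀ v : Pl K, ∑ j, ∑ b, (lead v j b : ℝ) * ex b v ≤
      (∑ m : Fin n → Fin E, ∑ b, (m b : ℝ) * ex b v) + ((E : ℝ) ^ n - N) * (n * E) := by
    intro v
    have h2 : ∑ j, ∑ b, (lead v j b : ℝ) * ex b v =
        ∑ m ∈ Finset.univ.image (lead v), ∑ b, (m b : ℝ) * ex b v := by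
      rw [Finset.sum_image fun x _ y _ h => hl v h]
    have h3 := Finset.sum_add_sum_compl (Finset.univ.image (lead v))
      (fun m : Fin n → Fin E => ∑ b, (m b : ℝ) * ex b v)
    have h4 : (((Finset.univ.image (lead v))ᶜ.card : ℕ) : ℝ) = (E : ℝ) ^ n - N := by
      have h5 : (Finset.univ.image (lead v)).card = N := by
        rw [Finset.card_image_of_injective _ (hl v), Finset.card_univ, Fintype.card_fin]
      have h6 := Finset.card_add_card_compl (Finset.univ.image (lead v))
      rw [h5, Fintype.card_fun, Fintype.card_fin, Fintype.card_fin] at h6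
      have h7 : ((N + (Finset.univ.image (lead v))ᶜ.card : ℕ) : ℝ) = ((E ^ n : ℕ) : ℝ) := by
        rw [h6]
      push_cast at h7
      linarith
    have h5 : ∑ _m ∈ (Finset.univ.image (lead v))ᶜ, (-(n * E : ℝ)) ≤
        ∑ m ∈ (Finset.univ.image (lead v))ᶜ, ∑ b, (m b : ℝ) * ex b v :=
      Finset.sum_le_sum fun m _ => hw v m
    rw [Finset.sum_const, nsmul_eq_mul, h4] at h5
    rw [h2]
    linarith
  have hz : ∀ v : FinitePlace K, v ∉ T → ∑ j, ∑ b, (lead (.inr v) j b : ℝ) * ex b (.inr v) = 0 := by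
    intro v hv
    refine Finset.sum_eq_zero fun j _ => Finset.sum_eq_zero fun b _ => ?_
    rw [h0 b v hv, mul_zero]
  have hz' : ∀ v : FinitePlace K, v ∉ T →
      ∑ m : Fin n → Fin E, ∑ b, (m b : ℝ) * ex b (.inr v) = 0 := by
    intro v hv
    refine Finset.sum_eq_zero fun j _ => Finset.sum_eq_zero fun b _ => ?_
    rw [h0 b v hv, mul_zero]
  have hF : ∀ b, FinS (ex b) := fun b => SU1.finS_of_S T _ (h0 b)
  have hsum : gsum (fun v => ∑ m : Fin n → Fin E, ∑ b, (m b : ℝ) * ex b v) = 0 := by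
    rw [gsum_sum Finset.univ fun m _ => FinS.sum Finset.univ fun b _ => (hF b).const_mul _]
    refine Finset.sum_eq_zero fun m _ => ?_
    rw [gsum_sum Finset.univ fun b _ => (hF b).const_mul _]
    refine Finset.sum_eq_zero fun b _ => ?_
    rw [gsum_const_mul, hg, mul_zero]
  calc gsum (fun v => ∑ j, ∑ b, (lead v j b : ℝ) * ex b v)
      = lsum T (fun v => ∑ j, ∑ b, (lead v j b : ℝ) * ex b v) := gsum_eq_of_S T _ hz
    _ ≤ lsum T (fun v => (∑ m : Fin n → Fin E, ∑ b, (m b : ℝ) * ex b v) +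
          ((E : ℝ) ^ n - N) * (n * E)) := lsum_mono T (fun v => hv _) (fun v _ => hv _)
    _ = gsum (fun v => ∑ m : Fin n → Fin E, ∑ b, (m b : ℝ) * ex b v) +
          (Fintype.card (InfinitePlace K) + T.card : ℝ) * (((E : ℝ) ^ n - N) * (n * E)) := by
        rw [lsum_add', lsum_const, gsum_eq_of_S T _ hz']
        rfl
    _ = _ := by rw [hsum, zero_add]

end GcdH40

open GcdH40 Pool.Agent.V2 Pool.Agent.Helper26.DMC Pool.Agent.Helper26.DMC.SU1 Topology in
theorem gcd2 {K : Type*} [Field K] [NumberField K] (U : Ultrafilter ℕ)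
    (T : Finset (FinitePlace K)) {n : ℕ} (e : Fin n → ℕ → K) (he : ∀ b, SUnit U T (e b))
    (hmi : MI U e) (f g : MvPolynomial (Fin n) K) (hf : f ≠ 0) (hg : g ≠ 0)
    (hfg : IsRelPrime f g) (t : ℕ → ℝ) (ht : Tendsto t (U : Filter ℕ) atTop) (B : ℝ)
    (hB : ∀ b v, ∀ᶠ i in (U : Filter ℕ), |Real.log (nv v (e b i))| ≤ B * t i) (δ : ℝ)
    (hδ : 0 < δ) :
    ∀ᶠ i in (U : Filter ℕ), (lsum T fun v => Real.log (vn v
        ![MvPolynomial.eval (fun b => e b i) f, MvPolynomial.eval (fun b => e b i) g])) ≤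
      vH ![MvPolynomial.eval (fun b => e b i) f, MvPolynomial.eval (fun b => e b i) g] +
        δ * t i := by
  classical
  by_contra hcon
  rw [← Ultrafilter.eventually_not] at hcon
  -- rescale `t`
  have hA : 0 < |B| + 1 := by positivity
  obtain ⟨s, hs⟩ : ∃ s : ℕ → ℝ, s = fun j => (|B| + 1) * t j := ⟨_, rfl⟩
  obtain ⟨δ', hδ'⟩ : ∃ δ' : ℝ, δ' = δ / (|B| + 1) := ⟨_, rfl⟩
  have hδ'pos : 0 < δ' := by rw [hδ']; positivity
  have hst : Tendsto s (U : Filter ℕ) atTop := by
    rw [hs]
    exact ht.const_mul_atTop hA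
  have hδs : ∀ j, δ * t j = δ' * s j := by
    intro j
    rw [hs, hδ']
    field_simp
  have hBs : ∀ b v, ∀ᶠ i in (U : Filter ℕ), |Real.log (nv v (e b i))| ≤ s i := by
    intro b w
    filter_upwards [hB b w, ht.eventually_ge_atTop 0] with j hj htj
    refine hj.trans ?_
    rw [hs]
    have h1 : B * t j ≤ |B| * t j := mul_le_mul_of_nonneg_right (le_abs_self B) htj
    have h2 : (|B| + 1) * t j = |B| * t j + t j := by ring
    simp only [h2]
    linarith
  -- exponents of the units
  have hE : ∀ b, ∃ ex : Pl K → ℝ, (∀ v : FinitePlace K, v ∉ T → ex (.inr v) = 0) ∧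
      (∀ v, Tendsto (fun j => Real.log (nv v (e b j)) / s j) U (𝓝 (ex v))) ∧ gsum ex = 0 := by
    intro b
    refine exps U T (e b) (he b) s hst (fun _ => 0) ?_
    intro w
    filter_upwards [hBs b w] with j hj
    rw [zero_add]
    exact hj
  choose ex hex0 hexl hexg using hE
  have hex1 : ∀ b v, |ex b v| ≤ 1 := by
    intro b v
    refine le_of_tendsto (hexl b v).abs ?_
    filter_upwards [hBs b v, hst.eventually_gt_atTop 0] with j hj hsj
    rw [abs_div, abs_of_pos hsj, div_le_one hsj]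
    exact hj
  -- the constants
  set M : ℝ := Fintype.card (InfinitePlace K) + T.card with hM
  have hMpos : 0 < M := by
    have h2 : 0 < Fintype.card (InfinitePlace K) := Fintype.card_pos
    have h3 : (0 : ℝ) < Fintype.card (InfinitePlace K) := by exact_mod_cast h2
    positivity
  set η : ℝ := δ' / (4 * (M * n + 1)) with hη
  have hηpos : 0 < η := by positivity
  -- the box
  obtain ⟨E₀, hE₀⟩ := lim_box (fun b => ((f.degreeOf b : ℕ) : ℝ))
    (fun b => ((g.degreeOf b : ℕ) : ℝ)) η hηpos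
  obtain ⟨E, hEE, hEd⟩ : ∃ E : ℕ, E₀ ≤ E ∧ ∀ b, f.degreeOf b + g.degreeOf b ≤ E := by
    refine ⟨E₀ + ∑ b, (f.degreeOf b + g.degreeOf b), Nat.le_add_right _ _, fun b => ?_⟩
    refine (Finset.single_le_sum (f := fun b => f.degreeOf b + g.degreeOf b)
      (fun _ _ => Nat.zero_le _) (Finset.mem_univ b)).trans (Nat.le_add_left _ _)
  obtain ⟨hX0, hX1⟩ := hE₀ E hEE
  have hdim := dim_VV f g hf hg hfg E hEd
  set V := VV f g E with hV
  obtain ⟨N, hN⟩ : ∃ N : ℕ, finrank K V = N := ⟨_, rfl⟩
  have hNR : (0 : ℝ) < N := by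
    rw [← hN]
    exact hX0.trans_le hdim
  have hNpos : 0 < N := by exact_mod_cast hNR
  have hNE : ((E : ℝ) ^ n - N) * E ≤ η * N := by
    have h1 : ((E : ℝ) ^ n - N) * E ≤ ((E : ℝ) ^ n - ((∏ b, ((E : ℝ) - f.degreeOf b)) +
        (∏ b, ((E : ℝ) - g.degreeOf b)) - ∏ b, ((E : ℝ) - f.degreeOf b - g.degreeOf b))) * E := by
      refine mul_le_mul_of_nonneg_right ?_ (Nat.cast_nonneg _)
      rw [hN] at hdim
      linarith
    refine h1.trans (hX1.trans ?_)
    rw [hN] at hdim
    exact mul_le_mul_of_nonneg_left hdim hηpos.le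
  -- the basis
  let φ : Basis (Fin N) K V := Module.finBasisOfFinrankEq K V hN
  -- the adapted bases
  have hadp : ∀ v : Pl K, ∃ (lead : Fin N → (Fin n → Fin E))
      (ψ : Fin N → ((Fin n → Fin E) → K)) (C : ℝ),
      Function.Injective lead ∧ (∀ j, ψ j ∈ V) ∧ LinearIndependent K ψ ∧
      ∀ᶠ i in (U : Filter ℕ), ∀ j,
        MvPolynomial.eval (fun b => e b i) (ev E (ψ j)) ≠ 0 →
        Real.log (nv v (MvPolynomial.eval (fun b => e b i) (ev E (ψ j)))) ≤
          ∑ b, Real.log (nv v (e b i)) * (lead j b : ℝ) + C := by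
    intro v
    have := adapted U T e he E V v
    rw [hN] at this
    exact this
  choose lead ψ Cv hlead hψV hψli hψ using hadp
  let A : Pl K → Matrix (Fin N) (Fin N) K := fun v =>
    Matrix.of fun j l => φ.repr ⟨ψ v j, hψV v j⟩ l
  have hAdet : ∀ v, (A v).det ≠ 0 := fun v => det_ne V φ (ψ v) (hψV v) (hψli v)
  -- the points
  let y : ℕ → Fin N → K := fun i l => MvPolynomial.eval (fun b => e b i) (ev E (φ l))
  have hAy : ∀ v i j, Matrix.mulVec (A v) (y i) j =
      MvPolynomial.eval (fun b => e b i) (ev E (ψ v j)) := by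
    intro v i j
    have h1 := eval_lin (fun b => e b i) (fun l => φ.repr ⟨ψ v j, hψV v j⟩ l)
      (fun l => ((φ l : V) : (Fin n → Fin E) → K))
    rw [repr_sum V φ (ψ v j) (hψV v j)] at h1
    rw [h1]
    rfl
  -- the exponents
  obtain ⟨v₀⟩ : Nonempty (InfinitePlace K) := inferInstance
  set Δ : ℝ := gsum (fun v => ∑ j, ∑ b, (lead v j b : ℝ) * ex b v) with hΔ
  have hΔle : Δ / N ≤ δ' / 4 := by
    have h1 := delta_le T ex hex0 hexg hex1 lead hlead
    rw [← hΔ, ← hM] at h1
    rw [div_le_iff₀ hNR]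
    have h2 : M * (((E : ℝ) ^ n - N) * (n * E)) = M * n * (((E : ℝ) ^ n - N) * E) := by ring
    rw [h2] at h1
    have h3 : M * n * (((E : ℝ) ^ n - N) * E) ≤ M * n * (η * N) :=
      mul_le_mul_of_nonneg_left hNE (by positivity)
    have h4 : M * n * η ≤ δ' / 4 := by
      rw [hη]
      have h5 : M * n * (δ' / (4 * (M * n + 1))) = δ' / 4 * ((M * n) / (M * n + 1)) := by
        field_simp
      rw [h5]
      have h6 : M * n / (M * n + 1) ≤ 1 := by
        rw [div_le_one (by positivity)]
        linarith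
      exact mul_le_of_le_one_right (by positivity) h6
    have h5 : M * n * (η * N) = (M * n * η) * N := by ring
    rw [h5] at h3
    have h6 : M * n * η * N ≤ δ' / 4 * N := mul_le_mul_of_nonneg_right h4 hNR.le
    linarith
  set c : Pl K → Fin N → ℝ := fun w j =>
    (∑ b, (lead w j b : ℝ) * ex b w) - (if w = .inl v₀ then Δ / N else 0) with hc
  have hw0 : ∀ (w : FinitePlace K) (j : Fin N), w ∉ T →
      ∑ b, (lead (.inr w) j b : ℝ) * ex b (.inr w) = 0 := by
    intro w j hw
    refine Finset.sum_eq_zero fun b _ => ?_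
    rw [hex0 b w hw, mul_zero]
  have hcT : ExpS T c := by
    intro w hw
    funext j
    simp only [hc]
    rw [hw0 w j hw]
    simp
  have hdeg : deg c = 0 := by
    have h2 : (fun w => ∑ i, c w i) = fun w => (∑ j, ∑ b, (lead w j b : ℝ) * ex b w) +
        (-Δ) * (if w = .inl v₀ then 1 else 0) := by
      funext w
      simp only [hc]
      rw [Finset.sum_sub_distrib, Finset.sum_const, Finset.card_univ,
        Fintype.card_fin, nsmul_eq_mul, sub_eq_add_neg]
      congr 1
      split_ifs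
      · field_simp
      · simp
    have f1 : FinS (fun w => ∑ j, ∑ b, (lead w j b : ℝ) * ex b w) :=
      SU1.finS_of_S T _ fun w hw => Finset.sum_eq_zero fun j _ => hw0 w j hw
    have f4 : FinS (K := K) (fun w => if w = .inl v₀ then 1 else 0) :=
      SU1.finS_of_S T _ (fun w hw => by simp)
    have g4 : gsum (K := K) (fun w => if w = .inl v₀ then (1 : ℝ) else 0) = 1 := by
      rw [gsum_eq_of_S T _ (fun w hw => by simp)]
      simp
    unfold deg
    rw [h2, gsum_add f1 (f4.const_mul _), gsum_const_mul, g4, ← hΔ]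
    ring
  -- nonvanishing
  have hne : ∀ v j, ∀ᶠ i in (U : Filter ℕ),
      MvPolynomial.eval (fun b => e b i) (ev E (ψ v j)) ≠ 0 := fun v j =>
    li U T e he hmi _ (ev_ne ((hψli v).ne_zero j))
  have hy0 : ∀ᶠ i in (U : Filter ℕ), y i ≠ 0 := by
    have h1 : ((φ ⟨0, hNpos⟩ : V) : (Fin n → Fin E) → K) ≠ 0 := by
      intro h
      exact φ.ne_zero ⟨0, hNpos⟩ (Subtype.ext h)
    filter_upwards [li U T e he hmi _ (ev_ne h1)] with i hi h
    exact hi (congrFun h ⟨0, hNpos⟩)
  -- local estimates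
  set ε : ℝ := δ' / (8 * M) with hε
  have hεpos : 0 < ε := by positivity
  have hloc : ∀ w : Pl K, ∀ᶠ i in (U : Filter ℕ), ∀ j,
      Real.log (nv w (MvPolynomial.eval (fun b => e b i) (ev E (ψ w j))) *
        Real.exp (-(s i * c w j))) ≤ ε * s i + (if w = .inl v₀ then Δ / N * s i else 0) := by
    intro w
    obtain ⟨ε₁, hε₁, hε₁'⟩ : ∃ ε₁ : ℝ, 0 < ε₁ ∧ ε₁ * (n * E) ≤ ε / 2 := by
      refine ⟨ε / (2 * (n * E + 1)), by positivity, ?_⟩
      have h5 : ε / (2 * (n * E + 1)) * (n * E) = ε / 2 * ((n * E) / (n * E + 1)) := by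
        field_simp
      rw [h5]
      refine mul_le_of_le_one_right (by positivity) ?_
      rw [div_le_one (by positivity)]
      linarith
    have h2 : ∀ᶠ i in (U : Filter ℕ), ∀ b, Real.log (nv w (e b i)) ≤ (ex b w + ε₁) * s i := by
      rw [Filter.eventually_all]
      intro b
      filter_upwards [(hexl b w).eventually
        (Iio_mem_nhds (show ex b w < ex b w + ε₁ by linarith)),
        hst.eventually_gt_atTop 0] with i hi hsi
      have h3 : Real.log (nv w (e b i)) / s i < ex b w + ε₁ := hi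
      rw [div_lt_iff₀ hsi] at h3
      exact h3.le
    have h3 : ∀ᶠ i in (U : Filter ℕ), ∀ j,
        MvPolynomial.eval (fun b => e b i) (ev E (ψ w j)) ≠ 0 := by
      rw [Filter.eventually_all]
      exact hne w
    have h4 : ∀ᶠ i in (U : Filter ℕ), Cv w ≤ ε / 2 * s i := by
      have : Tendsto (fun i => ε / 2 * s i) U atTop := hst.const_mul_atTop (by positivity)
      exact this.eventually_ge_atTop _
    filter_upwards [h2, h3, h4, hψ w, hst.eventually_gt_atTop 0] with i h2i h3i h4i h5i hsi j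
    rw [Real.log_mul (Pool.Agent.Helper64.Vojta.nv_pos w (h3i j)).ne' (Real.exp_pos _).ne',
      Real.log_exp]
    have h6 := h5i j (h3i j)
    have h7 : ∑ b, Real.log (nv w (e b i)) * (lead w j b : ℝ) ≤
        s i * (∑ b, (lead w j b : ℝ) * ex b w) + ε / 2 * s i := by
      have h8 : ∑ b, Real.log (nv w (e b i)) * (lead w j b : ℝ) ≤
          ∑ b, ((s i * ((lead w j b : ℝ) * ex b w)) + ε₁ * E * s i) := by
        refine Finset.sum_le_sum fun b _ => ?_
        have h9 : (0 : ℝ) ≤ ((lead w j b : ℕ) : ℝ) := Nat.cast_nonneg _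
        have h10 : ((lead w j b : ℕ) : ℝ) ≤ E := by exact_mod_cast (lead w j b).2.le
        have h11 := mul_le_mul_of_nonneg_right (h2i b) h9
        have h12 : ε₁ * s i * ((lead w j b : ℕ) : ℝ) ≤ ε₁ * s i * E :=
          mul_le_mul_of_nonneg_left h10 (by positivity)
        nlinarith
      rw [Finset.sum_add_distrib, ← Finset.mul_sum, Finset.sum_const, Finset.card_univ,
        Fintype.card_fin, nsmul_eq_mul] at h8
      have h13 : (n : ℝ) * (ε₁ * E * s i) ≤ ε / 2 * s i := by
        have : (n : ℝ) * (ε₁ * E * s i) = (ε₁ * (n * E)) * s i := by ring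
        rw [this]
        exact mul_le_mul_of_nonneg_right hε₁' hsi.le
      linarith
    simp only [hc]
    split_ifs with hv
    · have h14 : s i * (∑ b, (lead w j b : ℝ) * ex b w - Δ / N) =
          s i * (∑ b, (lead w j b : ℝ) * ex b w) - Δ / N * s i := by ring
      rw [h14]
      linarith
    · rw [sub_zero]
      linarith
  have htnI : ∀ᶠ i in (U : Filter ℕ), ∀ w : InfinitePlace K,
      Real.log (tn (Fm T A hAdet) (sc (s i) c) (.inl w) (y i)) ≤
        ε * s i + (if w = v₀ then Δ / N * s i else 0) := by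
    have h2 : ∀ᶠ i in (U : Filter ℕ), ∀ w : InfinitePlace K, ∀ j,
        Real.log (nv (.inl w) (MvPolynomial.eval (fun b => e b i) (ev E (ψ (.inl w) j))) *
          Real.exp (-(s i * c (.inl w) j))) ≤
            ε * s i + (if (Sum.inl w : Pl K) = .inl v₀ then Δ / N * s i else 0) := by
      rw [Filter.eventually_all]
      exact fun w => hloc (.inl w)
    have h3 : ∀ᶠ i in (U : Filter ℕ), ∀ (w : InfinitePlace K) (j : Fin N),
        MvPolynomial.eval (fun b => e b i) (ev E (ψ (.inl w) j)) ≠ 0 := by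
      rw [Filter.eventually_all]
      intro w
      rw [Filter.eventually_all]
      exact hne _
    filter_upwards [h2, h3] with i h2i h3i w
    unfold tn
    refine log_iSup_le hNpos _ ?_ _ ?_
    · intro j
      rw [Fm_inl, hAy]
      exact mul_pos (Pool.Agent.Helper64.Vojta.nv_pos _ (h3i w j)) (Real.exp_pos _)
    · intro j
      rw [Fm_inl, hAy]
      have := h2i w j
      simpa [sc] using this
  have htnS : ∀ᶠ i in (U : Filter ℕ), ∀ w ∈ T,
      Real.log (tn (Fm T A hAdet) (sc (s i) c) (.inr w) (y i)) ≤ ε * s i := by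
    have h2 : ∀ᶠ i in (U : Filter ℕ), ∀ w ∈ T, ∀ j,
        Real.log (nv (.inr w) (MvPolynomial.eval (fun b => e b i) (ev E (ψ (.inr w) j))) *
          Real.exp (-(s i * c (.inr w) j))) ≤
            ε * s i + (if (Sum.inr w : Pl K) = .inl v₀ then Δ / N * s i else 0) := by
      rw [Filter.eventually_all_finset]
      exact fun w _ => hloc (.inr w)
    have h3 : ∀ᶠ i in (U : Filter ℕ), ∀ w ∈ T, ∀ j : Fin N,
        MvPolynomial.eval (fun b => e b i) (ev E (ψ (.inr w) j)) ≠ 0 := by
      rw [Filter.eventually_all_finset]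
      intro w _
      rw [Filter.eventually_all]
      exact hne _
    filter_upwards [h2, h3] with i h2i h3i w hw
    unfold tn
    refine log_iSup_le hNpos _ ?_ _ ?_
    · intro j
      rw [Fm_inr T A hAdet w hw, hAy]
      exact mul_pos (Pool.Agent.Helper64.Vojta.nv_pos _ (h3i w hw j)) (Real.exp_pos _)
    · intro j
      rw [Fm_inr T A hAdet w hw, hAy]
      have := h2i w hw j
      simpa [sc] using this
  have htnO : ∀ i, ∀ w : FinitePlace K, w ∉ T →
      tn (Fm T A hAdet) (sc (s i) c) (.inr w) (y i) = vn (.inr w) (y i) := by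
    intro i w hw
    unfold tn vn
    congr 1
    funext j
    rw [Fm_out T A hAdet w hw, Matrix.one_mulVec]
    have h1 : sc (s i) c (.inr w) j = 0 := by
      unfold sc
      rw [hcT w hw]
      simp
    rw [h1]
    simp
  -- outside `T`
  have hVmem : ∀ l, ∃ a b : MvPolynomial (Fin n) K, a * f + b * g = ev E (φ l) := by
    intro l
    have h1 : ((φ l : V) : (Fin n → Fin E) → K) ∈ V := (φ l).2
    have h2 : ev E ((φ l : V) : (Fin n → Fin E) → K) ∈ Ideal.span {f, g} := h1
    exact Ideal.mem_span_pair.1 h2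
  choose a' b' hab using hVmem
  obtain ⟨C, hC⟩ := out_le U T e he (ι := Fin 2) (κ := Fin N) ![f, g]
    (fun l => ev E (φ l)) (fun l => ![a' l, b' l]) (by
      intro l
      rw [Fin.sum_univ_two]
      exact (hab l).symm)
  have hx : ∀ i, (fun j => MvPolynomial.eval (fun b => e b i) ((![f, g] : Fin 2 → _) j)) =
      ![MvPolynomial.eval (fun b => e b i) f, MvPolynomial.eval (fun b => e b i) g] := by
    intro i
    funext j
    fin_cases j <;> rfl
  simp only [hx] at hC
  have hCs : ∀ᶠ i in (U : Filter ℕ), C ≤ δ' / 8 * s i := by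
    have : Tendsto (fun i => δ' / 8 * s i) U atTop := hst.const_mul_atTop (by positivity)
    exact this.eventually_ge_atTop _
  have hfin := subspace_stub (Fm T A hAdet) c hcT hdeg U s hst (δ' / 2) (by positivity) y ?_
  · obtain ⟨W, hW, hW'⟩ := hfin
    obtain ⟨α, hα, hWα⟩ := Submodule.exists_le_ker_of_lt_top W (lt_top_iff_ne_top.mpr hW)
    have h1 : ∑ l, α (Pi.single l 1) • ((φ l : V) : (Fin n → Fin E) → K) ≠ 0 := by
      intro h
      apply hα
      have h2 : ∑ l, α (Pi.single l 1) • (φ l : V) = 0 := by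
        apply Subtype.ext
        simpa using h
      have h3 := Fintype.linearIndependent_iff.1 φ.linearIndependent _ h2
      refine LinearMap.pi_ext' fun l => ?_
      refine LinearMap.ext_ring ?_
      simpa using h3 l
    have h4 := li U T e he hmi _ (ev_ne h1)
    obtain ⟨i, hi1, hi2⟩ := (h4.and hW').exists
    apply hi1
    rw [eval_lin (fun b => e b i) (fun l => α (Pi.single l 1))
      (fun l => ((φ l : V) : (Fin n → Fin E) → K))]
    have h5 : α (y i) = 0 := by
      have := hWα hi2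
      rwa [LinearMap.mem_ker] at this
    have h6 : α (y i) = ∑ l, y i l * α (Pi.single l 1) := by
      conv_lhs => rw [← Finset.univ_sum_single (y i)]
      rw [map_sum]
      refine Finset.sum_congr rfl fun l _ => ?_
      have : (Pi.single l (y i l) : Fin N → K) = y i l • Pi.single l 1 := by
        rw [← Pi.single_smul, smul_eq_mul, mul_one]
      rw [this, map_smul, smul_eq_mul]
    rw [← h5, h6]
    exact Finset.sum_congr rfl fun l _ => mul_comm _ _
  filter_upwards [htnI, htnS, hy0, hC, hcon, hst.eventually_gt_atTop 0, hCs] with i hI hS hyi hCi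
    hci hsi hCsi
  refine ⟨hyi, ?_⟩
  have hsplit : tH (Fm T A hAdet) (sc (s i) c) (y i) =
      (lsum T fun w => (Real.log (tn (Fm T A hAdet) (sc (s i) c) w (y i)) -
        Real.log (vn w (y i)))) + vH (y i) := by
    unfold tH vH
    have h0 : ∀ w : FinitePlace K, w ∉ T →
        Real.log (tn (Fm T A hAdet) (sc (s i) c) (.inr w) (y i)) -
          Real.log (vn (.inr w) (y i)) = 0 := by
      intro w hw
      rw [htnO i w hw, sub_self]
    have h1 := gsum_add (K := K) (f := fun w =>
      Real.log (tn (Fm T A hAdet) (sc (s i) c) w (y i)) - Real.log (vn w (y i)))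
      (g := fun w => Real.log (vn w (y i)))
      (SU1.finS_of_S T _ h0) (finS_vn hyi)
    rw [gsum_eq_of_S T (fun w =>
      Real.log (tn (Fm T A hAdet) (sc (s i) c) w (y i)) - Real.log (vn w (y i))) h0] at h1
    simp only [sub_add_cancel] at h1
    exact h1
  have hl1 : (lsum T fun w => (Real.log (tn (Fm T A hAdet) (sc (s i) c) w (y i)) -
        Real.log (vn w (y i)))) = (lsum T fun w =>
          Real.log (tn (Fm T A hAdet) (sc (s i) c) w (y i))) -
        lsum T fun w => Real.log (vn w (y i)) := by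
    unfold lsum
    simp only [Finset.sum_sub_distrib]
    ring
  have hl2 : (lsum T fun w => Real.log (tn (Fm T A hAdet) (sc (s i) c) w (y i))) ≤
      M * (ε * s i) + Δ / N * s i := by
    have s1 : ∑ w : InfinitePlace K,
        Real.log (tn (Fm T A hAdet) (sc (s i) c) (.inl w) (y i)) ≤
        ∑ w : InfinitePlace K, (ε * s i + (if w = v₀ then Δ / N * s i else 0)) :=
      Finset.sum_le_sum fun w _ => hI w
    have s2 : ∑ w ∈ T, Real.log (tn (Fm T A hAdet) (sc (s i) c) (.inr w) (y i)) ≤
        ∑ w ∈ T, ε * s i := Finset.sum_le_sum fun w hw => hS w hw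
    rw [Finset.sum_add_distrib, Finset.sum_const, Finset.sum_ite_eq' Finset.univ v₀,
      Finset.card_univ, nsmul_eq_mul] at s1
    rw [Finset.sum_const, nsmul_eq_mul] at s2
    simp only [Finset.mem_univ, if_true] at s1
    unfold lsum
    have s3 : M * (ε * s i) = (Fintype.card (InfinitePlace K) : ℝ) * (ε * s i) +
        T.card * (ε * s i) := by
      rw [hM]
      ring
    linarith
  have hCi' := hCi hyi
  have hci' := not_le.1 hci
  rw [hδs i] at hci'
  have hMε : M * (ε * s i) = δ' / 8 * s i := by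
    rw [hε]
    field_simp
  have hΔs : Δ / N * s i ≤ δ' / 4 * s i := mul_le_mul_of_nonneg_right hΔle hsi.le
  rw [hsplit, hl1]
  rw [hMε] at hl2
  linarith

end Pool.Agent.Helper16.TM
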