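import Pool.Agent.Helper16.TM.Gcd2

/-!
# Block TM-GV: the content of the values of a primitive family

PROOF. Let `f_s = F.coeff s`, `s ≤ r`; they have no common factor except units (`IsPrimitive`: if `π ∣ f_s` for all `s` then
`C π ∣ F`). `F ≠ 0`, so some `f_{s0} ≠ 0`. There is `a : Fin (r + 1) → K` with `g = ∑ C (a s) * f_s ≠ 0` and
`IsRelPrime f_{s0} g`: for every prime factor `π` of `f_{s0}` the set of the `a` with `π ∣ g` is a proper
subspace, so is the set of the `a` with `g = 0`; finitely many proper subspaces of `K ^ (r + 1)` do not cover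
it (`K` infinite; in Mathlib `Subspace.biUnion_ne_univ_of_top_notMem` or so). `gcd2` for `f_{s0}`, `g` with
`δ / 2` and `out_le` with `y = ![f_{s0}, g]`, `x = (f_s)_s` and constants `A`:
`- δ/2 t ≤ vH y - lsum T (log vn y) ≤ vH x - lsum T (log vn x) + C`; `y ≠ 0` almost everywhere (`li`); `C ≤ δ/2 t` eventually.
`cf r (F.map (eval ..)) = fun s => eval .. (F.coeff s)`.
-/

namespace Pool.Agent.Helper16.TM

open NumberField Finset Filter Polynomial
open Pool.Agent.Helper64.Vojta (Pl nv sn)
open Pool.Agent.Helper26.DMC (SUnit)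
open Pool.Agent.Helper61.AD (cf)
open Pool.Agent.V2 (vn vH)
open Pool.Agent.Helper16.TP

/-- A generic combination of the members of a family without common factor is prime to a given member. -/
theorem h94_generic {K : Type*} [Field K] [Infinite K] {n r : ℕ}
    (f : Fin (r + 1) → MvPolynomial (Fin n) K) (s0 : Fin (r + 1)) (h0 : f s0 ≠ 0)
    (hp : ∀ π : MvPolynomial (Fin n) K, (∀ s, π ∣ f s) → IsUnit π) :
    ∃ a : Fin (r + 1) → K, (∑ s, MvPolynomial.C (a s) * f s) ≠ 0 ∧
      IsRelPrime (f s0) (∑ s, MvPolynomial.C (a s) * f s) := by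
  classical
  let L : (Fin (r + 1) → K) →ₗ[K] MvPolynomial (Fin n) K :=
    { toFun := fun a => ∑ s, MvPolynomial.C (a s) * f s
      map_add' := by
        intro x y
        simp [add_mul, Finset.sum_add_distrib]
      map_smul' := by
        intro c x
        simp [Finset.smul_sum, MvPolynomial.smul_eq_C_mul, mul_assoc] }
  have hLs : ∀ s, L (Pi.single s 1) = f s := by
    intro s
    change ∑ s', MvPolynomial.C ((Pi.single s 1 : Fin (r + 1) → K) s') * f s' = f s
    rw [Finset.sum_eq_single s]
    · simp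
    · intro b _ hb
      simp [Pi.single_eq_of_ne hb]
    · simp
  let W : MvPolynomial (Fin n) K → Subspace K (Fin (r + 1) → K) := fun π =>
    ((Ideal.span {π}).restrictScalars K).comap L
  let Fs : Finset (MvPolynomial (Fin n) K) :=
    (UniqueFactorizationMonoid.factors (f s0)).toFinset
  let S : Finset (Subspace K (Fin (r + 1) → K)) := insert (LinearMap.ker L) (Fs.image W)
  have hS : ⊤ ∉ S := by
    intro h
    rcases Finset.mem_insert.1 h with h | h
    · have h1 : (Pi.single s0 1 : Fin (r + 1) → K) ∈ LinearMap.ker L := by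
        rw [← h]; trivial
      rw [LinearMap.mem_ker, hLs] at h1
      exact h0 h1
    · obtain ⟨π, hπ, hW⟩ := Finset.mem_image.1 h
      have hπ' : π ∈ UniqueFactorizationMonoid.factors (f s0) := Multiset.mem_toFinset.1 hπ
      have hirr := UniqueFactorizationMonoid.irreducible_of_factor π hπ'
      apply hirr.not_isUnit
      apply hp
      intro s
      have h1 : (Pi.single s 1 : Fin (r + 1) → K) ∈ W π := by
        rw [hW]; trivial
      have h2 : L (Pi.single s 1) ∈ Ideal.span {π} := h1
      rw [hLs] at h2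
      exact Ideal.mem_span_singleton.1 h2
  have hcov := Subspace.biUnion_ne_univ_of_top_notMem hS
  obtain ⟨a, ha⟩ := (Set.ne_univ_iff_exists_notMem _).1 hcov
  have haS : ∀ p ∈ S, a ∉ p := by
    intro p hpS hap
    exact ha (Set.mem_biUnion hpS hap)
  have hg : L a ≠ 0 := by
    intro h
    exact haS (LinearMap.ker L) (Finset.mem_insert_self _ _) (LinearMap.mem_ker.2 h)
  refine ⟨a, hg, ?_⟩
  apply WfDvdMonoid.isRelPrime_of_no_irreducible_factors
  · rintro ⟨h, -⟩
    exact h0 h
  · intro z hz hz1 hz2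
    obtain ⟨q, hq, hzq⟩ := UniqueFactorizationMonoid.exists_mem_factors_of_dvd h0 hz hz1
    apply haS (W q) (Finset.mem_insert_of_mem (Finset.mem_image_of_mem _
      (Multiset.mem_toFinset.2 hq)))
    change L a ∈ Ideal.span {q}
    rw [Ideal.mem_span_singleton]
    exact (hzq.symm.dvd).trans hz2

theorem gcd_vec {K : Type*} [Field K] [NumberField K] (U : Ultrafilter ℕ)
    (T : Finset (FinitePlace K)) {n r : ℕ} (e : Fin n → ℕ → K) (he : ∀ b, SUnit U T (e b))
    (hmi : MI U e) (F : (MvPolynomial (Fin n) K)[X]) (hF : F.IsPrimitive) (hr : F.natDegree ≤ r)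
    (t : ℕ → ℝ) (ht : Tendsto t (U : Filter ℕ) atTop) (B : ℝ)
    (hB : ∀ b v, ∀ᶠ i in (U : Filter ℕ), |Real.log (nv v (e b i))| ≤ B * t i) (δ : ℝ)
    (hδ : 0 < δ) :
    ∀ᶠ i in (U : Filter ℕ), (lsum T fun v => Real.log (vn v
        (cf r (F.map (MvPolynomial.eval fun b => e b i))))) ≤
      vH (cf r (F.map (MvPolynomial.eval fun b => e b i))) + δ * t i := by
  classical
  have hcf : ∀ i, cf r (F.map (MvPolynomial.eval fun b => e b i)) =
      fun s : Fin (r + 1) => MvPolynomial.eval (fun b => e b i) (F.coeff s) := by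
    intro i
    funext s
    simp [cf, Polynomial.coeff_map]
  have hp : ∀ π : MvPolynomial (Fin n) K, (∀ s : Fin (r + 1), π ∣ F.coeff s) → IsUnit π := by
    intro π h
    apply hF
    rw [Polynomial.C_dvd_iff_dvd_coeff]
    intro j
    by_cases hj : j < r + 1
    · exact h ⟨j, hj⟩
    · rw [Polynomial.coeff_eq_zero_of_natDegree_lt (by omega)]
      exact dvd_zero _
  have hex : ∃ s0 : Fin (r + 1), F.coeff s0 ≠ 0 := by
    by_contra hcon
    push Not at hcon
    have h1 := hp 0 (fun s => by rw [hcon s])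
    exact not_isUnit_zero h1
  obtain ⟨s0, h0⟩ := hex
  obtain ⟨a, hg, hrel⟩ := h94_generic (fun s : Fin (r + 1) => F.coeff s) s0 h0 hp
  set g : MvPolynomial (Fin n) K := ∑ s : Fin (r + 1), MvPolynomial.C (a s) * F.coeff s with hgdef
  have h1 := gcd2 U T e he hmi (F.coeff s0) g h0 hg hrel t ht B hB (δ / 2) (by positivity)
  obtain ⟨C, hC⟩ := out_le U T e he (ι := Fin (r + 1)) (κ := Fin 2)
    (fun s => F.coeff s) ![F.coeff s0, g]
    ![fun j => if j = s0 then 1 else 0, fun j => MvPolynomial.C (a j)] (by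
      intro l
      fin_cases l
      · simp
      · simp [hgdef])
  have h2 := li U T e he hmi (F.coeff s0) h0
  have h3 : ∀ᶠ i in (U : Filter ℕ), C / (δ / 2) ≤ t i := ht.eventually_ge_atTop _
  have hy : ∀ i, (fun l : Fin 2 => MvPolynomial.eval (fun b => e b i)
      ((![F.coeff s0, g] : Fin 2 → MvPolynomial (Fin n) K) l)) =
      ![MvPolynomial.eval (fun b => e b i) (F.coeff s0), MvPolynomial.eval (fun b => e b i) g] := by
    intro i
    funext l
    fin_cases l <;> rfl
  filter_upwards [h1, hC, h2, h3] with i g1 g2 g3 g4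
  rw [hcf i]
  rw [hy i] at g2
  have g5 := g2 (by
    intro h
    apply g3
    exact congrFun h 0)
  have g6 : C ≤ t i * (δ / 2) := (div_le_iff₀ (by positivity)).1 g4
  linarith

end Pool.Agent.Helper16.TM
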