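import Pool.Agent.Helper16.TM.GcdVec

/-!
# Block TM-HB: the height of the coefficients bounds the height of the monomials

PROOF. `t i = vH (mons G e i)`. For every `s ∈ G.support`, `m ∈ (G.coeff s).support` and `v` infinite or in `T`, `lower_poly` gives
`log |mons m|_v - δ t ≤ log |(G.coeff s)(e_i)|_v ≤ log (vn v (cf r (G(e_i))))`, so
`log (vn v (mons G e i)) - δ t ≤ log (vn v (cf r G(e_i)))` almost everywhere. Sum over the infinite places and `T`:
`lsum T (log vn v (mons)) = vH (mons)` because `vn v (mons) = 1` for `v ∉ T`. So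
`t - M δ t ≤ lsum T (log vn v (cf r G(e_i))) ≤ vH (cf r G(e_i)) + δ t` by `gcd_vec`. Take `(M + 1) δ ≤ 1 / 2`.
`expSet G` is not empty because `G` is primitive.
-/

namespace Pool.Agent.Helper16.TM

open NumberField Finset Filter Polynomial
open Pool.Agent.Helper64.Vojta (Pl nv sn)
open Pool.Agent.Helper26.DMC (SUnit)
open Pool.Agent.Helper61.AD (cf)
open Pool.Agent.V2 (vn vH)
open Pool.Agent.Helper16.TP

theorem nv_pow_h5 {K : Type*} [Field K] [NumberField K] (v : Pl K) (x : K) (n : ℕ) :
    nv v (x ^ n) = nv v x ^ n := by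
  induction n with
  | zero => simp [Pool.Agent.Helper64.Vojta.nv_one]
  | succ n ih => rw [pow_succ, pow_succ, Pool.Agent.Helper64.Vojta.nv_mul, ih]

theorem nv_prod_h5 {K : Type*} [Field K] [NumberField K] (v : Pl K) {α : Type*} (s : Finset α)
    (f : α → K) : nv v (∏ a ∈ s, f a) = ∏ a ∈ s, nv v (f a) := by
  classical
  induction s using Finset.induction_on with
  | empty => simp [Pool.Agent.Helper64.Vojta.nv_one]
  | insert a s ha ih =>
    rw [Finset.prod_insert ha, Finset.prod_insert ha, Pool.Agent.Helper64.Vojta.nv_mul, ih]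

theorem height_mons {K : Type*} [Field K] [NumberField K] (U : Ultrafilter ℕ)
    (T : Finset (FinitePlace K)) {n r : ℕ} (e : Fin n → ℕ → K) (he : ∀ b, SUnit U T (e b))
    (hmi : MI U e) (G : (MvPolynomial (Fin n) K)[X]) (hG : G.IsPrimitive) (hr : G.natDegree ≤ r)
    (ht : Tendsto (fun i => vH (mons G e i)) (U : Filter ℕ) atTop) (B : ℝ)
    (hB : ∀ b v, ∀ᶠ i in (U : Filter ℕ),
      |Real.log (nv v (e b i))| ≤ B * vH (mons G e i)) :
    ∀ᶠ i in (U : Filter ℕ), vH (mons G e i) ≤
      2 * vH (cf r (G.map (MvPolynomial.eval fun b => e b i))) := by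
  classical
  have nv_pos : ∀ (w : Pl K) {x : K}, x ≠ 0 → 0 < nv w x :=
    fun w _ hx => Pool.Agent.Helper64.Vojta.nv_pos w hx
  set t : ℕ → ℝ := fun i => vH (mons G e i) with htdef
  set N : ℝ := Fintype.card (InfinitePlace K) + T.card with hN
  have hNpos : 0 < N := by
    have h2 : 0 < Fintype.card (InfinitePlace K) := Fintype.card_pos
    have h3 : (0 : ℝ) < Fintype.card (InfinitePlace K) := by exact_mod_cast h2
    positivity
  set δ : ℝ := 1 / (2 * (N + 1)) with hδ
  have hδpos : 0 < δ := by positivity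
  have hG0 : G ≠ 0 := hG.ne_zero
  have hexp : Nonempty (expSet G) := by
    obtain ⟨s, hs⟩ := Polynomial.support_nonempty.2 hG0
    obtain ⟨m, hm⟩ := MvPolynomial.support_nonempty.2 (Polynomial.mem_support_iff.1 hs)
    exact ⟨⟨m, by unfold expSet; exact Finset.mem_biUnion.2 ⟨s, hs, hm⟩⟩⟩
  obtain ⟨m0⟩ := hexp
  -- one place, one monomial
  have hall : ∀ᶠ i in (U : Filter ℕ), ∀ b, e b i ≠ 0 ∧ ∀ v : FinitePlace K, v ∉ T →
      v (e b i) = 1 := by
    rw [Filter.eventually_all]
    exact fun b => he b
  have hmon : ∀ (m : expSet G) (v : Pl K) (i : ℕ), (∀ b, e b i ≠ 0) →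
      Real.log (nv v (mons G e i m)) =
        ∑ b, Real.log (nv v (e b i)) * (((m : Fin n →₀ ℕ) b : ℕ) : ℝ) := by
    intro m v i hi
    unfold mons
    rw [nv_prod_h5, Real.log_prod (fun b _ => ?_)]
    · refine Finset.sum_congr rfl fun b _ => ?_
      rw [nv_pow_h5, Real.log_pow, mul_comm]
    · rw [nv_pow_h5]
      exact pow_ne_zero _ (nv_pos v (hi b)).ne'
  have hmne : ∀ (m : expSet G) (i : ℕ), (∀ b, e b i ≠ 0) → mons G e i m ≠ 0 := by
    intro m i hi
    unfold mons
    exact Finset.prod_ne_zero_iff.2 fun b _ => pow_ne_zero _ (hi b)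
  have key : ∀ (m : expSet G) (v : Pl K), ∀ᶠ i in (U : Filter ℕ),
      cf r (G.map (MvPolynomial.eval fun b => e b i)) ≠ 0 ∧
      Real.log (nv v (mons G e i m)) - δ * t i ≤
        Real.log (vn v (cf r (G.map (MvPolynomial.eval fun b => e b i)))) := by
    intro m v
    obtain ⟨s, hs, hm⟩ : ∃ s ∈ G.support, (m : Fin n →₀ ℕ) ∈ (G.coeff s).support := by
      have := m.2
      unfold expSet at this
      exact Finset.mem_biUnion.1 this
    have hQ : G.coeff s ≠ 0 := Polynomial.mem_support_iff.1 hs
    have hsr : s ≤ r := (Polynomial.le_natDegree_of_mem_supp s hs).trans hr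
    filter_upwards [li U T e he hmi (G.coeff s) hQ,
      lower_poly U T e he hmi (G.coeff s) hQ t ht B hB v δ hδpos, hall] with i hi1 hi2 hi3
    have h5 : cf r (G.map (MvPolynomial.eval fun b => e b i)) ⟨s, by omega⟩ =
        MvPolynomial.eval (fun b => e b i) (G.coeff s) := by
      change (G.map (MvPolynomial.eval fun b => e b i)).coeff s = _
      rw [Polynomial.coeff_map]
    refine ⟨?_, ?_⟩
    · intro h
      rw [h] at h5
      exact hi1 h5.symm
    · rw [hmon m v i fun b => (hi3 b).1]
      refine (hi2 _ hm).trans ?_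
      rw [← h5]
      refine Real.log_le_log (nv_pos v ?_) (Pool.Agent.V2.le_vn v _ _)
      rw [h5]
      exact hi1
  -- all monomials
  have key2 : ∀ v : Pl K, ∀ᶠ i in (U : Filter ℕ), Real.log (vn v (mons G e i)) ≤
      Real.log (vn v (cf r (G.map (MvPolynomial.eval fun b => e b i)))) + δ * t i := by
    intro v
    have h1 : ∀ᶠ i in (U : Filter ℕ), ∀ m, Real.log (nv v (mons G e i m)) - δ * t i ≤
        Real.log (vn v (cf r (G.map (MvPolynomial.eval fun b => e b i)))) := by
      rw [Filter.eventually_all]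
      intro m
      filter_upwards [key m v] with i hi
      exact hi.2
    filter_upwards [h1, hall] with i hi ha
    have hne0 : mons G e i ≠ 0 := by
      intro h
      exact hmne m0 i (fun b => (ha b).1) (congrFun h m0)
    rw [Real.log_le_iff_le_exp (Pool.Agent.V2.vn_pos v hne0)]
    refine Pool.Agent.V2.vn_le v _ (Real.exp_pos _).le ?_
    intro m
    rw [← Real.log_le_iff_le_exp (nv_pos v (hmne m i fun b => (ha b).1))]
    have := hi m
    linarith
  have keyI : ∀ᶠ i in (U : Filter ℕ), ∀ v : InfinitePlace K,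
      Real.log (vn (.inl v) (mons G e i)) ≤ Real.log (vn (.inl v)
        (cf r (G.map (MvPolynomial.eval fun b => e b i)))) + δ * t i := by
    rw [Filter.eventually_all]
    exact fun v => key2 (.inl v)
  have keyT : ∀ᶠ i in (U : Filter ℕ), ∀ v ∈ T,
      Real.log (vn (.inr v) (mons G e i)) ≤ Real.log (vn (.inr v)
        (cf r (G.map (MvPolynomial.eval fun b => e b i)))) + δ * t i := by
    rw [Filter.eventually_all_finset]
    exact fun v _ => key2 (.inr v)
  filter_upwards [keyI, keyT, hall, gcd_vec U T e he hmi G hG hr t ht B hB δ hδpos] with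
    i hI hT ha hg
  have h1 : t i = lsum T fun v => Real.log (vn v (mons G e i)) := by
    change Pool.Agent.V2.gsum (fun v => Real.log (vn v (mons G e i))) = _
    refine Pool.Agent.Helper26.DMC.SU1.gsum_eq_of_S T _ ?_
    intro v hv
    have h5 : ∀ m, nv (.inr v) (mons G e i m) = 1 := by
      intro m
      unfold mons
      rw [nv_prod_h5]
      refine Finset.prod_eq_one fun b _ => ?_
      rw [nv_pow_h5]
      have : nv (.inr v) (e b i) = 1 := (ha b).2 v hv
      rw [this, one_pow]
    have h4 : vn (.inr v) (mons G e i) = 1 := by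
      refine le_antisymm (Pool.Agent.V2.vn_le _ _ zero_le_one fun m => (h5 m).le) ?_
      have := Pool.Agent.V2.le_vn (.inr v) (mons G e i) m0
      rwa [h5 m0] at this
    rw [h4, Real.log_one]
  have h2 : (lsum T fun v => Real.log (vn v (mons G e i))) ≤
      (lsum T fun v => Real.log (vn v
        (cf r (G.map (MvPolynomial.eval fun b => e b i))))) + N * (δ * t i) := by
    unfold Pool.Agent.Helper16.TP.lsum
    have s1 := Finset.sum_le_sum fun v (_ : v ∈ (Finset.univ : Finset (InfinitePlace K))) => hI v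
    have s2 := Finset.sum_le_sum fun v (hv : v ∈ T) => hT v hv
    rw [Finset.sum_add_distrib, Finset.sum_const, Finset.card_univ, nsmul_eq_mul] at s1
    rw [Finset.sum_add_distrib, Finset.sum_const, nsmul_eq_mul] at s2
    rw [hN]
    linarith
  have h4 : N * (δ * t i) + δ * t i = t i / 2 := by
    have : N * (δ * t i) + δ * t i = (N + 1) * δ * t i := by ring
    rw [this, hδ]
    have h5 : N + 1 ≠ 0 := by positivity
    field_simp
  change t i ≤ 2 * vH (cf r (G.map (MvPolynomial.eval fun b => e b i)))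
  linarith

end Pool.Agent.Helper16.TM
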