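import Pool.Agent.Helper16.TM.Defs

/-!
# Block TM-RA: a representation from a combination of units

PROOF. `units` (TP/Units.lean) for `ρ`: `n, χ, a, c` with `ρ_j = c_j ∏_b (e_b) ^ a j b` almost everywhere,
`e_b = ∏ ρ_j ^ χ b j`, which are `SUnit`s. Choose `M : ℕ` with `a j b + M ≥ 0` for all `j`, `b`. Put
`𝓕 = ∑ j, C (monomial (a_j + M) c_j) * (H j).map MvPolynomial.C`, `w i = w₀ i * ∏ b, e_b i ^ M`. (The same construction as
in TP/KSeq.lean.)
-/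

namespace Pool.Agent.Helper16.TM

open NumberField Finset Filter Polynomial
open Pool.Agent.Helper26.DMC (SUnit)
open Pool.Agent.Helper16.TP

namespace RA30

/-- the exponents -/
noncomputable def ex {n : ℕ} (M : ℕ) (a : Fin n → ℤ) : Fin n →₀ ℕ :=
  Finsupp.equivFunOnFinite.symm fun b => (a b + M).toNat

/-- the polynomial family -/
noncomputable def fam {K : Type*} [Field K] {n : ℕ} {J : Type*} [Fintype J] (M : ℕ)
    (a : J → Fin n → ℤ) (c : J → K) (H : J → K[X]) : (MvPolynomial (Fin n) K)[X] :=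
  ∑ κ, C (MvPolynomial.monomial (ex M (a κ)) (c κ)) * (H κ).map MvPolynomial.C

theorem fam_map {K : Type*} [Field K] {n : ℕ} {J : Type*} [Fintype J] (M : ℕ)
    (a : J → Fin n → ℤ) (hM : ∀ κ b, 0 ≤ a κ b + M) (c : J → K) (H : J → K[X]) (x : Fin n → K)
    (hx : ∀ b, x b ≠ 0) :
    (fam M a c H).map (MvPolynomial.eval x) =
      C (∏ b, x b ^ M) * ∑ κ, C (c κ * ∏ b, x b ^ a κ b) * H κ := by
  unfold fam
  rw [Polynomial.map_sum, mul_sum]
  refine sum_congr rfl fun κ _ => ?_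
  rw [Polynomial.map_mul, map_C, Polynomial.map_map]
  have h1 : (MvPolynomial.eval x).comp (MvPolynomial.C : K →+* MvPolynomial (Fin n) K) =
      RingHom.id K := by
    ext y
    simp
  rw [h1, Polynomial.map_id, MvPolynomial.eval_monomial, ← mul_assoc, ← C_mul]
  congr 2
  rw [Finsupp.prod_fintype _ _ (fun b => pow_zero _), mul_left_comm, ← prod_mul_distrib]
  congr 1
  refine prod_congr rfl fun b _ => ?_
  have h2 : ((ex M (a κ) b : ℕ) : ℤ) = a κ b + M := by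
    simp only [ex, Finsupp.equivFunOnFinite_symm_apply_apply]
    exact Int.toNat_of_nonneg (hM κ b)
  rw [← zpow_natCast, h2, ← zpow_natCast (x b) M, ← zpow_add₀ (hx b), add_comm]

end RA30

open RA30 in
theorem rep_of_units {K : Type*} [Field K] [NumberField K] (U : Ultrafilter ℕ)
    (T : Finset (FinitePlace K)) {J : Type*} [Fintype J] (H : J → K[X]) (ρ : J → ℕ → K)
    (hρ : ∀ j, SUnit U T (ρ j)) (F : ℕ → K[X]) (w₀ : ℕ → K)
    (hF : ∀ᶠ i in (U : Filter ℕ), w₀ i ≠ 0 ∧ C (w₀ i) * F i = ∑ j, C (ρ j i) * H j) :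
    ∃ (n : ℕ) (χ : Fin n → J → ℤ) (G : (MvPolynomial (Fin n) K)[X]) (w : ℕ → K),
      Rep U T F n (fun b i => ∏ j, ρ j i ^ χ b j) G w := by
  classical
  have hρ' : ∀ᶠ i in (U : Filter ℕ), ∀ κ, ρ κ i ≠ 0 ∧ ∀ v : FinitePlace K, v ∉ T → v (ρ κ i) = 1 :=
    (eventually_all).2 fun κ => hρ κ
  obtain ⟨n, χ, a, c, hc, hρe, hmi⟩ := units U ρ fun κ => (hρ κ).mono fun i h => h.1
  have hρe' : ∀ᶠ i in (U : Filter ℕ), ∀ κ, ρ κ i = c κ * ∏ b, (∏ j', ρ j' i ^ χ b j') ^ a κ b :=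
    (eventually_all).2 fun κ => hρe κ
  have he' : ∀ᶠ i in (U : Filter ℕ), ∀ b, (∏ j', ρ j' i ^ χ b j') ≠ 0 ∧
      ∀ v : FinitePlace K, v ∉ T → v (∏ j', ρ j' i ^ χ b j') = 1 := by
    filter_upwards [hρ'] with i hi b
    refine ⟨Finset.prod_ne_zero_iff.2 fun κ _ => zpow_ne_zero _ (hi κ).1, fun v hv => ?_⟩
    rw [map_prod]
    refine prod_eq_one fun κ _ => ?_
    rw [map_zpow₀, (hi κ).2 v hv, one_zpow]
  obtain ⟨M, hM⟩ : ∃ M : ℕ, ∀ κ b, 0 ≤ a κ b + M := by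
    refine ⟨∑ κ, ∑ b, (a κ b).natAbs, fun κ b => ?_⟩
    have h1 : (a κ b).natAbs ≤ ∑ κ, ∑ b, (a κ b).natAbs :=
      (single_le_sum (f := fun b => (a κ b).natAbs) (fun _ _ => Nat.zero_le _) (mem_univ b)).trans
        (single_le_sum (f := fun κ => ∑ b, (a κ b).natAbs) (fun _ _ => Nat.zero_le _)
          (mem_univ κ))
    omega
  refine ⟨n, χ, fam M a c H, fun i => w₀ i * ∏ b, (∏ j', ρ j' i ^ χ b j') ^ M,
    fun b => he'.mono fun i hi => hi b, hmi, ?_⟩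
  filter_upwards [hF, hρe', he'] with i h1 h2 h3
  refine ⟨mul_ne_zero h1.1 (Finset.prod_ne_zero_iff.2 fun b _ => pow_ne_zero _ (h3 b).1), ?_⟩
  rw [fam_map M a hM c H _ fun b => (h3 b).1]
  have h4 : ∑ κ, C (c κ * ∏ b, (∏ j', ρ j' i ^ χ b j') ^ a κ b) * H κ = C (w₀ i) * F i := by
    rw [h1.2]
    refine sum_congr rfl fun κ _ => ?_
    rw [← h2 κ]
  rw [h4, ← mul_assoc, ← C_mul, mul_comm (∏ b, (∏ j', ρ j' i ^ χ b j') ^ M)]

end Pool.Agent.Helper16.TM
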