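import Pool.Agent.Helper16.TM.RepA

/-!
# Block TM-RB: two applications of `rep_of_units`

PROOF. `rep_exists`: `J` = the `j` for which `u j` is an `SUnit`, `w₀ = 1`. `rep_ratio`: if `expSet G` is empty then
`G = 0` and (as `F i ≠ 0`, `w i ≠ 0`) there is a contradiction. Choose `m₀ ∈ expSet G`; put `J = expSet G`,
`ρ_m i = mons G e i m / mons G e i m₀` (`SUnit`), `H_m = ∑ s, monomial s (coefficient of m in G.coeff s)`,
`w₀ i = w i / mons G e i m₀`. `rep_of_units`;
`∏ m, ρ_m ^ χ b m = ∏ m, (mons m) ^ (z m)` with `z m = χ b m - (if m = m₀ then ∑ χ b else 0)`, `∑ z = 0`.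
-/

namespace Pool.Agent.Helper16.TM

open NumberField Finset Filter Polynomial
open Pool.Agent.Helper26.DMC (SUnit)
open Pool.Agent.Helper16.TP

theorem rep_exists {K : Type*} [Field K] [NumberField K] (U : Ultrafilter ℕ)
    (T : Finset (FinitePlace K)) {m : ℕ} (G : Fin m → K[X]) (u : Fin m → ℕ → K)
    (hu : ∀ j, (∀ᶠ i in (U : Filter ℕ), u j i = 0) ∨ SUnit U T (u j)) (F : ℕ → K[X])
    (hF : ∀ᶠ i in (U : Filter ℕ), F i = ∑ j, C (u j i) * G j) :
    ∃ (n : ℕ) (e : Fin n → ℕ → K) (H : (MvPolynomial (Fin n) K)[X]) (w : ℕ → K),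
      Rep U T F n e H w := by
  classical
  have h0 : ∀ᶠ i in (U : Filter ℕ), ∀ j, ¬ SUnit U T (u j) → u j i = 0 := by
    rw [eventually_all]
    intro j
    rcases hu j with h | h
    · filter_upwards [h] with i hi _
      exact hi
    · exact Eventually.of_forall fun i hi => absurd h hi
  obtain ⟨n, χ, H, w, hrep⟩ := rep_of_units U T (J := {j : Fin m // SUnit U T (u j)})
    (fun j => G j.1) (fun j => u j.1) (fun j => j.2) F (fun _ => 1) (by
      filter_upwards [hF, h0] with i hi h0i
      refine ⟨one_ne_zero, ?_⟩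
      rw [C_1, one_mul, hi]
      rw [← Finset.sum_subtype (Finset.univ.filter fun j => SUnit U T (u j)) (by simp)
        (fun j => C (u j i) * G j)]
      rw [Finset.sum_filter_of_ne]
      intro j _ hj
      by_contra hc
      exact hj (by rw [h0i j hc, C_0, zero_mul]))
  exact ⟨n, _, H, w, hrep⟩

/-- The value of `G` at `e` as a combination of the monomials. -/
lemma map_eq_sum_h68 {K : Type*} [Field K] {n : ℕ} (G : (MvPolynomial (Fin n) K)[X])
    (e : Fin n → ℕ → K) (i : ℕ) :
    G.map (MvPolynomial.eval fun b => e b i) = ∑ m : expSet G, C (mons G e i m) *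
      ∑ s ∈ G.support, monomial s (MvPolynomial.coeff (m : Fin n →₀ ℕ) (G.coeff s)) := by
  classical
  ext s
  rw [coeff_map, finsetSum_coeff]
  have h1 : ∀ m : expSet G, (C (mons G e i m) * ∑ s ∈ G.support,
      monomial s (MvPolynomial.coeff (m : Fin n →₀ ℕ) (G.coeff s))).coeff s =
      MvPolynomial.coeff (m : Fin n →₀ ℕ) (G.coeff s) * ∏ b, e b i ^ ((m : Fin n →₀ ℕ) b) := by
    intro m
    rw [coeff_C_mul, finsetSum_coeff]
    simp only [coeff_monomial]
    rw [Finset.sum_ite_eq']
    split_ifs with hs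
    · unfold mons
      rw [mul_comm]
    · rw [notMem_support_iff.1 hs]
      simp
  rw [Finset.sum_congr rfl fun m _ => h1 m]
  rw [MvPolynomial.eval_eq']
  rw [Finset.sum_coe_sort (expSet G) fun m : Fin n →₀ ℕ =>
    MvPolynomial.coeff m (G.coeff s) * ∏ b, e b i ^ m b]
  by_cases hs : s ∈ G.support
  · apply Finset.sum_subset
    · intro m hm
      unfold expSet
      exact Finset.mem_biUnion.2 ⟨s, hs, hm⟩
    · intro m _ hm
      rw [MvPolynomial.notMem_support_iff.1 hm, zero_mul]
  · rw [notMem_support_iff.1 hs]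
    simp

theorem rep_ratio {K : Type*} [Field K] [NumberField K] (U : Ultrafilter ℕ)
    (T : Finset (FinitePlace K)) (F : ℕ → K[X]) (hF0 : ∀ᶠ i in (U : Filter ℕ), F i ≠ 0) {n : ℕ}
    (e : Fin n → ℕ → K) (G : (MvPolynomial (Fin n) K)[X]) (w : ℕ → K) (h : Rep U T F n e G w) :
    ∃ (n' : ℕ) (e' : Fin n' → ℕ → K) (G' : (MvPolynomial (Fin n') K)[X]) (w' : ℕ → K)
      (z : Fin n' → expSet G → ℤ), Rep U T F n' e' G' w' ∧ (∀ b, ∑ m, z b m = 0) ∧
      ∀ᶠ i in (U : Filter ℕ), ∀ b, e' b i = ∏ m, mons G e i m ^ z b m := by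
  classical
  obtain ⟨he, -, hG⟩ := h
  -- the expSet is nonempty
  have hne : (expSet G).Nonempty := by
    rw [Finset.nonempty_iff_ne_empty]
    intro hem
    obtain ⟨i, hi, h0i⟩ := (hG.and hF0).exists
    obtain ⟨hw, heq⟩ := hi
    rw [map_eq_sum_h68] at heq
    have : IsEmpty (expSet G) := by
      rw [hem]
      exact Finset.isEmpty_coe_sort.2 rfl
    rw [Finset.univ_eq_empty, Finset.sum_empty] at heq
    exact mul_ne_zero (C_ne_zero.2 hw) h0i heq.symm
  obtain ⟨m₀', hm₀'⟩ := hne
  let m₀ : expSet G := ⟨m₀', hm₀'⟩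
  -- units
  have hall : ∀ᶠ i in (U : Filter ℕ), ∀ b, e b i ≠ 0 ∧
      ∀ v : FinitePlace K, v ∉ T → v (e b i) = 1 := by
    rw [eventually_all]
    intro b
    exact he b
  have hmon : ∀ᶠ i in (U : Filter ℕ), ∀ m : expSet G, mons G e i m ≠ 0 ∧
      ∀ v : FinitePlace K, v ∉ T → v (mons G e i m) = 1 := by
    filter_upwards [hall] with i hi m
    constructor
    · unfold mons
      exact Finset.prod_ne_zero_iff.2 fun b _ => pow_ne_zero _ (hi b).1
    · intro v hv
      unfold mons
      rw [map_prod]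
      apply Finset.prod_eq_one
      intro b _
      rw [map_pow, (hi b).2 v hv, one_pow]
  obtain ⟨n', χ, G', w', hrep⟩ := rep_of_units U T (J := expSet G)
    (fun m => ∑ s ∈ G.support, monomial s (MvPolynomial.coeff (m : Fin n →₀ ℕ) (G.coeff s)))
    (fun m i => mons G e i m / mons G e i m₀)
    (by
      intro m
      filter_upwards [hmon] with i hi
      refine ⟨div_ne_zero (hi m).1 (hi m₀).1, fun v hv => ?_⟩
      rw [map_div₀, (hi m).2 v hv, (hi m₀).2 v hv, div_one])
    F (fun i => w i / mons G e i m₀)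
    (by
      filter_upwards [hmon, hG] with i hi hGi
      obtain ⟨hw, heq⟩ := hGi
      refine ⟨div_ne_zero hw (hi m₀).1, ?_⟩
      rw [map_eq_sum_h68] at heq
      have h1 : C (w i / mons G e i m₀) * F i = C (mons G e i m₀)⁻¹ * (C (w i) * F i) := by
        rw [← mul_assoc, ← C_mul, div_eq_mul_inv, mul_comm (mons G e i m₀)⁻¹]
      rw [h1, ← heq, Finset.mul_sum]
      apply Finset.sum_congr rfl
      intro m _
      rw [← mul_assoc, ← C_mul, div_eq_mul_inv, mul_comm (mons G e i m₀)⁻¹])
  refine ⟨n', _, G', w', fun b m => χ b m - (if m = m₀ then ∑ m', χ b m' else 0), hrep, ?_, ?_⟩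
  · intro b
    rw [Finset.sum_sub_distrib, Finset.sum_ite_eq' Finset.univ m₀]
    simp
  · filter_upwards [hmon] with i hi b
    have h1 : ∀ m : expSet G, mons G e i m ^ (χ b m - (if m = m₀ then ∑ m', χ b m' else 0)) =
        mons G e i m ^ χ b m / mons G e i m ^ (if m = m₀ then ∑ m', χ b m' else 0) :=
      fun m => zpow_sub₀ (hi m).1 _ _
    rw [Finset.prod_congr rfl fun m _ => h1 m, Finset.prod_div_distrib]
    have h2 : ∏ m : expSet G, mons G e i m ^ (if m = m₀ then ∑ m', χ b m' else 0) =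
        mons G e i m₀ ^ ∑ m', χ b m' := by
      rw [Finset.prod_eq_single m₀]
      · rw [if_pos rfl]
      · intro m _ hm
        rw [if_neg hm, zpow_zero]
      · intro hm
        exact absurd (Finset.mem_univ _) hm
    have h3 : ∏ m : expSet G, (mons G e i m / mons G e i m₀) ^ χ b m =
        (∏ m : expSet G, mons G e i m ^ χ b m) / mons G e i m₀ ^ ∑ m', χ b m' := by
      rw [Finset.prod_congr rfl fun m _ => div_zpow (mons G e i m) (mons G e i m₀) (χ b m),
        Finset.prod_div_distrib]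
      congr 1
      have : ∀ s : Finset (expSet G), ∏ m ∈ s, mons G e i m₀ ^ χ b m =
          mons G e i m₀ ^ ∑ m ∈ s, χ b m := by
        intro s
        induction s using Finset.induction_on with
        | empty => simp
        | insert a s has ih =>
          rw [Finset.prod_insert has, Finset.sum_insert has, ih, zpow_add₀ (hi m₀).1]
      exact this Finset.univ
    rw [h2]
    exact h3

end Pool.Agent.Helper16.TM
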